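import Pool.Agent.X100.NK.Glob

/-!
# Rational functions over a number field at rational arguments: the three conductors of the values
-/

set_option autoImplicit false

namespace Pool.Agent.X100.NK

open NumberField IsDedekindDomain Finset Polynomial
open Pool.Agent.W4.CF Pool.Agent.W4.VC Pool.Agent.H691R3 Pool.Agent.W240.CD
open Pool.Agent.X100.Nt (Cnt)

variable {K : Type} [Field K] [NumberField K]

/-- the conductor -/
noncomputable def cnd (x : K) : ℝ :=
  (∑ᶠ (v : HeightOneSpectrum (𝓞 K)) (_ : FinitePlace.mk v x < 1),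
    Real.log (Ideal.absNorm v.asIdeal : ℝ)) / (Module.finrank ℚ K : ℝ)

theorem cnd_sum (a c : K) (ha : a ≠ 0) (hc : c ≠ 0) (hac : c - a ≠ 0) :
    cnd (a / c) + cnd (a / c)⁻¹ + cnd (a / c - 1) = radN ![a, c - a, c] := by
  set x : K := a / c with hx
  have hx0 : x ≠ 0 := div_ne_zero ha hc
  have hx1 : x - 1 ≠ 0 := by
    intro h
    apply hac
    have h2 : a = c := by
      have h3 : x = 1 := sub_eq_zero.1 h
      rw [hx, div_eq_one_iff_eq hc] at h3
      exact h3
    rw [h2, sub_self]
  set S1 : Set (HeightOneSpectrum (𝓞 K)) := {w | fv w x < 1} with hS1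
  set S2 : Set (HeightOneSpectrum (𝓞 K)) := {w | fv w x⁻¹ < 1} with hS2
  set S3 : Set (HeightOneSpectrum (𝓞 K)) := {w | fv w (x - 1) < 1} with hS3
  have f1 : S1.Finite := (fv_support_finite hx0).subset fun w hw => ne_of_lt hw
  have f2 : S2.Finite := (fv_support_finite (inv_ne_zero hx0)).subset fun w hw => ne_of_lt hw
  have f3 : S3.Finite := (fv_support_finite hx1).subset fun w hw => ne_of_lt hw
  have hna := fun (w : HeightOneSpectrum (𝓞 K)) => fv_na w (x - 1) 1
  have hnb := fun (w : HeightOneSpectrum (𝓞 K)) => fv_na w x (-(x - 1))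
  have hnc := fun (w : HeightOneSpectrum (𝓞 K)) => fv_na w x (-1)
  have key1 : ∀ w, fv w (x - 1) < 1 → fv w x = 1 := by
    intro w hw
    have h1 := hna w
    have h2 := hnb w
    rw [sub_add_cancel, map_one, max_eq_right hw.le] at h1
    have e : x + -(x - 1) = 1 := by ring
    rw [e, map_one, map_neg_eq_map] at h2
    rcases le_max_iff.1 h2 with h3 | h3
    · exact le_antisymm h1 h3
    · linarith
  have hBe : {w : HeightOneSpectrum (𝓞 K) | ¬ ∀ i j, fv w ((![a, c - a, c] : Fin 3 → K) i) =
      fv w ((![a, c - a, c] : Fin 3 → K) j)} = (S1 ∪ S2) ∪ S3 := by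
    ext w
    have hcp : 0 < fv w c := (fv w).pos hc
    have ea : fv w a = fv w x * fv w c := by
      rw [← map_mul, hx, div_mul_cancel₀ _ hc]
    have eb : fv w (c - a) = fv w (x - 1) * fv w c := by
      rw [← map_neg_eq_map (fv w) (x - 1), ← map_mul, hx]
      congr 1
      field_simp
      ring
    constructor
    · intro hw
      by_contra hcon
      rw [Set.mem_union, Set.mem_union, not_or, not_or] at hcon
      obtain ⟨⟨h1, h2⟩, h3⟩ := hcon
      have h1' : 1 ≤ fv w x := not_lt.1 h1
      have h2' : 1 ≤ fv w x⁻¹ := not_lt.1 h2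
      have h3' : 1 ≤ fv w (x - 1) := not_lt.1 h3
      rw [map_inv₀] at h2'
      have h4 : fv w x = 1 := by
        refine le_antisymm ?_ h1'
        by_contra h5
        push Not at h5
        have := inv_lt_one_of_one_lt₀ h5
        linarith
      have h5 : fv w (x - 1) = 1 := by
        refine le_antisymm ?_ h3'
        have := hnc w
        rw [← sub_eq_add_neg, map_neg_eq_map, map_one, h4, max_self] at this
        exact this
      apply hw
      rw [h4, one_mul] at ea
      rw [h5, one_mul] at eb
      intro i j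
      fin_cases i <;> fin_cases j <;> simp [ea, eb]
    · intro hw hall
      have h02 : fv w a = fv w c := hall 0 2
      have h12 : fv w (c - a) = fv w c := hall 1 2
      have g1 : fv w x = 1 := by
        rw [ea] at h02
        exact mul_right_cancel₀ hcp.ne' (by rw [h02, one_mul])
      have g2 : fv w (x - 1) = 1 := by
        rw [eb] at h12
        exact mul_right_cancel₀ hcp.ne' (by rw [h12, one_mul])
      rcases hw with (hw | hw) | hw
      · exact (ne_of_lt hw) g1
      · have : fv w x⁻¹ < 1 := hw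
        rw [map_inv₀, g1, inv_one] at this
        exact lt_irrefl _ this
      · exact (ne_of_lt hw) g2
  have d12 : Disjoint S1 S2 := by
    rw [Set.disjoint_left]
    intro w h1 h2
    have h1' : fv w x < 1 := h1
    have h2' : fv w x⁻¹ < 1 := h2
    rw [map_inv₀] at h2'
    have h3 := (one_lt_inv₀ ((fv w).pos hx0)).2 h1'
    linarith
  have d3 : Disjoint (S1 ∪ S2) S3 := by
    rw [Set.disjoint_left]
    intro w h1 h3
    have h4 := key1 w h3
    rcases h1 with h1 | h1
    · exact (ne_of_lt h1) h4
    · have h5 : fv w x⁻¹ < 1 := h1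
      rw [map_inv₀, h4, inv_one] at h5
      exact lt_irrefl _ h5
  have e1 : ∑ᶠ (v : HeightOneSpectrum (𝓞 K))
      (_ : ¬ ∀ i j, FinitePlace.mk v ((![a, c - a, c] : Fin 3 → K) i) =
        FinitePlace.mk v ((![a, c - a, c] : Fin 3 → K) j)),
      Real.log (Ideal.absNorm v.asIdeal : ℝ) =
      ∑ᶠ v ∈ (S1 ∪ S2) ∪ S3, Real.log (Ideal.absNorm v.asIdeal : ℝ) := by
    rw [← hBe]
    rfl
  unfold radN cnd
  rw [e1, finsum_mem_union d3 (f1.union f2) f3, finsum_mem_union d12 f1 f2, add_div, add_div]
  rfl

end Pool.Agent.X100.NK
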