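import Pool.Agent.X100.NK.Glob
import Pool.Agent.H691R3.Places

/-!
# Counting rational parameters by an arbitrary size function which dominates the primes dividing a
form; primes at which one polynomial over `K` is small
-/

set_option autoImplicit false

namespace Pool.Agent.X100.NK

open NumberField IsDedekindDomain Finset Polynomial
open Pool.Agent.W4.CF Pool.Agent.W4.VC Pool.Agent.H691R3 Pool.Agent.W240.CD
open Pool.Agent.TH498.KB Pool.Agent.TH498.HF
open Pool.Agent.X100.Nt (Cnt)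

/-- the general count -/
theorem count_gen {ι : Type} [Fintype ι] [DecidableEq ι] (f : ι → ℤ[X]) (d : ι → ℕ)
    {θ : ℝ} (hcnt : Cnt f d θ) (N : ℝ) (hN1 : 1 ≤ N) (μ : ℚ → ℝ) (Ok : ℚ → Prop) (m : ℕ)
    (hm : 1 ≤ m)
    (hlow : ∀ x, Ok x → ∀ T : Finset ℕ, (∀ p ∈ T, p.Prime ∧ ¬ p ∣ m ∧
      (p : ℤ) ∣ hom (∏ k, f k) (∑ k, d k) x.num x.den) →
      ∑ p ∈ T, Real.log (p : ℝ) ≤ N * μ x) :
    ∃ (C : ℝ) (e : ℕ), 0 < C ∧ ∀ R : ℝ, 1 ≤ R → ∀ S : Set ℚ,
      (∀ x ∈ S, Ok x ∧ μ x ≤ Real.log R) →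
      S.Finite ∧ (S.ncard : ℝ) ≤ C * R ^ (N * θ) * (1 + Real.log R) ^ e := by
  classical
  obtain ⟨C, e, hC, hmain⟩ := hcnt m hm
  refine ⟨C * N ^ e, e, by positivity, ?_⟩
  intro R hR S hS
  have hR0 : 0 < R := by linarith
  have hlogR : 0 ≤ Real.log R := Real.log_nonneg hR
  refine fin_of_bound S _ fun s hs => ?_
  let G : ℚ → ℤ × ℤ := fun x => (x.num, (x.den : ℤ))
  have hinj : Function.Injective G := by
    intro x y h
    have h1 : x.num = y.num := congrArg Prod.fst h
    have h2 : (x.den : ℤ) = (y.den : ℤ) := congrArg Prod.snd h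
    exact Rat.ext h1 (by exact_mod_cast h2)
  have hRN : 1 ≤ R ^ N := Real.one_le_rpow hR (by linarith)
  have h1 := hmain (R ^ N) hRN (s.image G) (by
    intro q hq
    obtain ⟨x, hx, rfl⟩ := mem_image.mp hq
    obtain ⟨hx1, hx2⟩ := hS x (hs hx)
    have hcop : IsCoprime x.num (x.den : ℤ) := by
      rw [Int.isCoprime_iff_gcd_eq_one]
      exact x.reduced
    have h3 : ∀ T : Finset ℕ, (∀ p ∈ T, p.Prime ∧ ¬ p ∣ m ∧
        (p : ℤ) ∣ hom (∏ k, f k) (∑ k, d k) x.num x.den) →
        ∑ p ∈ T, Real.log (p : ℝ) ≤ N * Real.log R := fun T hT =>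
      (hlow x hx1 T hT).trans (mul_le_mul_of_nonneg_left hx2 (by linarith))
    have hne : hom (∏ k, f k) (∑ k, d k) x.num x.den ≠ 0 := by
      intro h0
      have hinf : (Set.ofPred Nat.Prime \ {p | p ∣ m}).Infinite :=
        Nat.infinite_setOfPred_prime.sdiff ((Nat.divisors m).finite_toSet.subset fun p hp =>
          Finset.mem_coe.2 (Nat.mem_divisors.2 ⟨hp, by omega⟩))
      obtain ⟨k, hk⟩ := exists_nat_gt (N * Real.log R / Real.log 2)
      obtain ⟨T, hT1, hT2⟩ := hinf.exists_subset_card_eq k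
      have h4 := h3 T fun p hp => by
        obtain ⟨h5, h6⟩ := hT1 (Finset.mem_coe.2 hp)
        exact ⟨h5, h6, by rw [h0]; exact dvd_zero _⟩
      have hl2 : 0 < Real.log 2 := Real.log_pos (by norm_num)
      have h7 : (k : ℝ) * Real.log 2 ≤ ∑ p ∈ T, Real.log (p : ℝ) := by
        rw [← hT2, ← nsmul_eq_mul, ← sum_const]
        refine sum_le_sum fun p hp => ?_
        have h8 : p.Prime := (hT1 (Finset.mem_coe.2 hp)).1
        exact Real.log_le_log (by norm_num) (by exact_mod_cast h8.two_le)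
      rw [div_lt_iff₀ hl2] at hk
      linarith
    refine ⟨hcop, hne, ?_⟩
    have h4 := h3 ((hom (∏ k, f k) (∑ k, d k) x.num x.den).natAbs.primeFactors.filter
      (fun p => ¬ p ∣ m)) (fun p hp => by
        obtain ⟨h5, h6⟩ := mem_filter.1 hp
        exact ⟨Nat.prime_of_mem_primeFactors h5, h6,
          Int.natCast_dvd.2 (Nat.dvd_of_mem_primeFactors h5)⟩)
    have hlr : Real.log (radp m (hom (∏ k, f k) (∑ k, d k) x.num x.den).natAbs : ℝ) =
        ∑ p ∈ (hom (∏ k, f k) (∑ k, d k) x.num x.den).natAbs.primeFactors.filter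
          (fun p => ¬ p ∣ m), Real.log (p : ℝ) := by
      unfold radp
      rw [Nat.cast_prod, Real.log_prod]
      intro p hp
      exact_mod_cast (Nat.prime_of_mem_primeFactors (mem_filter.mp hp).1).ne_zero
    have hpos : (0 : ℝ) < (radp m (hom (∏ k, f k) (∑ k, d k) x.num x.den).natAbs : ℝ) := by
      exact_mod_cast radp_pos _ _
    rw [← hlr] at h4
    rw [← Real.log_rpow hR0] at h4
    exact (Real.log_le_log_iff hpos (by positivity)).1 h4)
  rw [card_image_of_injective _ hinj] at h1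
  refine h1.trans ?_
  rw [Real.log_rpow hR0, ← Real.rpow_mul hR0.le]
  have h5 : (1 + N * Real.log R) ^ e ≤ (N * (1 + Real.log R)) ^ e :=
    pow_le_pow_left₀ (by nlinarith) (by nlinarith) _
  rw [mul_pow] at h5
  calc C * R ^ (N * θ) * (1 + N * Real.log R) ^ e ≤
      C * R ^ (N * θ) * (N ^ e * (1 + Real.log R) ^ e) :=
        mul_le_mul_of_nonneg_left h5 (by positivity)
    _ = _ := by ring

variable {K : Type} [Field K] [NumberField K]

/-- a form with rational coefficients and a form over `K` which vanishes at one of its zeros -/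
theorem place_lower (G : (𝓞 K)[X]) (D : ℕ) (hG : G.natDegree ≤ D)
    {ι : Type} [Fintype ι] [DecidableEq ι] (f : ι → ℤ[X]) (d : ι → ℕ)
    (hrel : ∀ i, (Irreducible ((f i).map (Int.castRingHom ℚ)) ∧ d i = (f i).natDegree ∧ 1 ≤ D ∧
      ¬ IsCoprime ((f i).map (Int.castRingHom K)) (G.map (algebraMap (𝓞 K) K))) ∨
      (f i = 1 ∧ d i = 1 ∧ G.natDegree < D)) :
    ∃ m : ℕ, 1 ≤ m ∧ ∀ u v : ℤ, IsCoprime u v → v ≠ 0 → ∀ p : ℕ, p.Prime → ¬ p ∣ m →
      (p : ℤ) ∣ hom (∏ k, f k) (∑ k, d k) u v →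
      ∃ w : HeightOneSpectrum (𝓞 K), fv w (p : K) < 1 ∧
        fv w (hL (G.map (algebraMap (𝓞 K) K)) D u v) < 1 := by
  classical
  have hloc : ∀ i, ∃ m : ℕ, 1 ≤ m ∧ ∀ u v : ℤ, v ≠ 0 → ∀ p : ℕ, p.Prime → ¬ p ∣ m →
      (p : ℤ) ∣ hom (f i) (d i) u v →
      ∃ w : HeightOneSpectrum (𝓞 K), fv w (p : K) < 1 ∧
        fv w (hL (G.map (algebraMap (𝓞 K) K)) D u v) < 1 := by
    intro i
    rcases hrel i with ⟨h1, h2, hD, h3⟩ | ⟨h1, h2, h3⟩
    · obtain ⟨m, hm, h4⟩ := exists_placeK G D hD hG (f i) h1 h3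
      refine ⟨m, hm, fun u v hv p hp hpm hpf => ?_⟩
      rw [h2] at hpf
      exact h4 u v hv p hp hpm hpf
    · refine ⟨1, le_rfl, fun u v hv p hp _ hpf => ?_⟩
      rw [h1, h2, Pool.Agent.X100.Mx.hom_C1] at hpf
      obtain ⟨w, hw⟩ := exists_above (K := K) p hp
      refine ⟨w, hw, ?_⟩
      have hvK : (v : K) ≠ 0 := by exact_mod_cast hv
      have hv1 : fv w (v : K) < 1 := by
        obtain ⟨c, hc⟩ := hpf
        have : (v : K) = (p : K) * (c : K) := by
          rw [hc]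
          push_cast
          rfl
        rw [this, map_mul]
        have h5 := fv_int w c
        have h6 := (fv w).nonneg (c : K)
        have h7 := (fv w).nonneg (p : K)
        nlinarith
      have hd1 : (G.map (algebraMap (𝓞 K) K)).natDegree ≤ D - 1 :=
        natDegree_map_le.trans (by omega)
      have e1 : hL (G.map (algebraMap (𝓞 K) K)) D u v =
          v * hL (G.map (algebraMap (𝓞 K) K)) (D - 1) u v := by
        rw [hL_eval _ D (by omega) u v hvK, hL_eval _ (D - 1) hd1 u v hvK, ← mul_assoc,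
          ← pow_succ']
        congr 2
        omega
      rw [e1, map_mul]
      have h5 := fv_hL_le w (G.map (algebraMap (𝓞 K) K)) (D - 1) u v (fun k => by
        rw [coeff_map]
        exact fv_int' w _)
      have h6 := (fv w).nonneg (v : K)
      have h7 := (fv w).nonneg (hL (G.map (algebraMap (𝓞 K) K)) (D - 1) u v)
      nlinarith
  choose m1 hm1 hm1' using hloc
  refine ⟨∏ i, m1 i, Nat.pos_of_ne_zero (prod_ne_zero_iff.2 fun i _ => by
    have := hm1 i
    omega), ?_⟩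
  intro u v huv hv p hp hpm hpf
  have hfd : ∀ i, (f i).natDegree ≤ d i := by
    intro i
    rcases hrel i with ⟨-, h2, -⟩ | ⟨h1, h2, -⟩
    · exact h2.ge
    · rw [h1, natDegree_one]
      exact Nat.zero_le _
  rw [(hom_prod univ f d (fun i _ => hfd i) u v).2] at hpf
  have hpZ : Prime (p : ℤ) := Nat.prime_iff_prime_int.mp hp
  obtain ⟨i, -, hi⟩ := (hpZ.dvd_finsetProd_iff _).1 hpf
  exact hm1' i u v hv p hp (fun h => hpm (h.trans (dvd_prod_of_mem m1 (mem_univ i)))) hi

/-- the primes at which all the coordinates are small divide a constant (also for points) -/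
theorem bezK0 {κ : Type} [Fintype κ] (P : κ → (𝓞 K)[X]) (D : ℕ)
    (hP : ∀ j, (P j).natDegree ≤ D) (hlead : ∃ j, (P j).natDegree = D)
    (hspan : Ideal.span (Set.range fun j => (P j).map (algebraMap (𝓞 K) K)) = ⊤) :
    ∃ m : ℕ, 1 ≤ m ∧ ∀ p : ℕ, p.Prime → ¬ p ∣ m → ∀ w : HeightOneSpectrum (𝓞 K),
      fv w (p : K) < 1 → ∀ u v : ℤ, IsCoprime u v → v ≠ 0 →
      ∃ j, 1 ≤ fv w (hL ((P j).map (algebraMap (𝓞 K) K)) D u v) := by
  classical
  rcases Nat.eq_zero_or_pos D with h0 | h0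
  · subst h0
    have h1 : (1 : K[X]) ∈ Ideal.span (Set.range fun j => (P j).map (algebraMap (𝓞 K) K)) := by
      rw [hspan]
      trivial
    obtain ⟨c, hc⟩ := Ideal.mem_span_range_iff_exists_fun.1 h1
    obtain ⟨j, hj⟩ : ∃ j, P j ≠ 0 := by
      by_contra hcon
      push Not at hcon
      have : (1 : K[X]) = 0 := by
        rw [← hc]
        exact sum_eq_zero fun j _ => by rw [hcon j, Polynomial.map_zero, mul_zero]
      exact one_ne_zero this
    have hjC : P j = C ((P j).coeff 0) := eq_C_of_natDegree_le_zero (hP j)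
    set a : 𝓞 K := (P j).coeff 0 with ha
    have ha0 : (a : K) ≠ 0 := by
      intro h
      have h2 : a = 0 := by exact_mod_cast h
      rw [h2, C_0] at hjC
      exact hj hjC
    obtain ⟨m, hm, hm'⟩ := coeff_int (C ((a : K)⁻¹))
    refine ⟨m, hm, fun p hp hpm w hw u v _ _ => ⟨j, ?_⟩⟩
    have e1 : hL ((P j).map (algebraMap (𝓞 K) K)) 0 u v = (a : K) := by
      rw [hL, zero_add, sum_range_one, coeff_map, ← ha]
      simp
    rw [e1]
    have h5 := hm' p hp hpm w hw 0
    rw [coeff_C_zero, map_inv₀] at h5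
    by_contra hcc
    push Not at hcc
    have h6 : 0 < fv w (a : K) := (fv w).pos ha0
    have h7 := (one_lt_inv₀ h6).2 hcc
    linarith
  · exact bezK P D h0 hP hlead hspan

/-- from a place for each prime to the sum of the logarithms -/
theorem sum_le_of_places (μ : ℝ) (T : Finset ℕ) (hT : ∀ p ∈ T, p.Prime)
    (Good : HeightOneSpectrum (𝓞 K) → Prop)
    (hex : ∀ p ∈ T, ∃ w : HeightOneSpectrum (𝓞 K), fv w (p : K) < 1 ∧ Good w)
    (hμ : ∀ S : Finset (HeightOneSpectrum (𝓞 K)), (∀ w ∈ S, Good w) →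
      ∑ w ∈ S, Real.log (Nv w) ≤ μ) :
    ∑ p ∈ T, Real.log (p : ℝ) ≤ μ := by
  classical
  have hnon : Nonempty (HeightOneSpectrum (𝓞 K)) := by
    obtain ⟨w, -⟩ := exists_above (K := K) 2 Nat.prime_two
    exact ⟨w⟩
  choose! ω hω1 hω2 using hex
  have hinj : Set.InjOn ω (T : Set ℕ) := by
    intro p hp q hq hpq
    have h1 := hω1 p hp
    rw [hpq] at h1
    exact uniq (ω q) p q (hT p hp) (hT q hq) h1 (hω1 q hq)
  calc ∑ p ∈ T, Real.log (p : ℝ) ≤ ∑ p ∈ T, Real.log (Nv (ω p)) := by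
        refine sum_le_sum fun p hp => ?_
        have h1 := hT p hp
        have h2 := dvd_norm (ω p) p h1 (hω1 p hp)
        apply Real.log_le_log (by exact_mod_cast h1.pos)
        have h3 := NumberField.HeightOneSpectrum.one_lt_absNorm (ω p)
        have h4 := Nat.le_of_dvd (by omega) h2
        rw [Nv]
        exact_mod_cast h4
    _ = ∑ w ∈ T.image ω, Real.log (Nv w) := by rw [Finset.sum_image hinj]
    _ ≤ _ := by
        refine hμ _ fun w hw => ?_
        obtain ⟨p, hp, rfl⟩ := mem_image.1 hw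
        exact hω2 p hp

/-- a number which is small at a place is at most the inverse of the norm -/
theorem log_le_neg (w : HeightOneSpectrum (𝓞 K)) (z : K) (hz : z ≠ 0) (h : fv w z < 1) :
    Real.log (fv w z) ≤ - Real.log (Nv w) := by
  obtain ⟨c, hc⟩ := log_fv w hz
  have h1 : Real.log (fv w z) < 0 := Real.log_neg ((fv w).pos hz) h
  rw [hc] at h1 ⊢
  have h2 : (c : ℝ) < 0 := by
    by_contra hcon
    push Not at hcon
    have := mul_nonneg hcon (log_Nv_pos w).le
    linarith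
  have h3 : c < 0 := by exact_mod_cast h2
  have h4 : c ≤ -1 := by omega
  have h5 : (c : ℝ) ≤ -1 := by exact_mod_cast h4
  nlinarith [log_Nv_pos w]

end Pool.Agent.X100.NK
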