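import Pool.Agent.X100.NK.Loc
import Pool.Agent.TH498.HF.T1

/-!
# The radical of the points of a rational curve over a number field at rational parameters
-/

set_option autoImplicit false

namespace Pool.Agent.X100.NK

open NumberField IsDedekindDomain Finset Polynomial
open Pool.Agent.W4.CF Pool.Agent.W4.VC Pool.Agent.H691R3 Pool.Agent.W240.CD
open Pool.Agent.TH498.KB Pool.Agent.TH498.HF
open Pool.Agent.X100.Nt (Cnt)
open Pool.Agent.W563.QD (exists_place fv_one fv_add_eq)

variable {K : Type} [Field K] [NumberField K]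

theorem fv_sum_lt (w : HeightOneSpectrum (𝓞 K)) {ι : Type} (s : Finset ι) (g : ι → K)
    (h : ∀ i ∈ s, fv w (g i) < 1) : fv w (∑ i ∈ s, g i) < 1 := by
  classical
  induction s using Finset.induction_on with
  | empty => simp
  | insert i s hi ih =>
    rw [sum_insert hi]
    refine lt_of_le_of_lt (fv_na w _ _) (max_lt (h i (mem_insert_self i s)) ?_)
    exact ih fun j hj => h j (mem_insert_of_mem hj)

theorem fv_int' (w : HeightOneSpectrum (𝓞 K)) (x : 𝓞 K) : fv w (x : K) ≤ 1 :=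
  FinitePlace.norm_le_one (K := K) w x

/-- the primes at which all the coordinates are small divide a constant -/
theorem bezK {κ : Type} [Fintype κ] (P : κ → (𝓞 K)[X]) (D : ℕ) (hD : 1 ≤ D)
    (hP : ∀ j, (P j).natDegree ≤ D) (hlead : ∃ j, (P j).natDegree = D)
    (hspan : Ideal.span (Set.range fun j => (P j).map (algebraMap (𝓞 K) K)) = ⊤) :
    ∃ m : ℕ, 1 ≤ m ∧ ∀ p : ℕ, p.Prime → ¬ p ∣ m → ∀ w : HeightOneSpectrum (𝓞 K),
      fv w (p : K) < 1 → ∀ u v : ℤ, IsCoprime u v → v ≠ 0 →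
      ∃ j, 1 ≤ fv w (hL ((P j).map (algebraMap (𝓞 K) K)) D u v) := by
  classical
  have h1 : (1 : K[X]) ∈ Ideal.span (Set.range fun j => (P j).map (algebraMap (𝓞 K) K)) := by
    rw [hspan]
    trivial
  obtain ⟨c, hc⟩ := Ideal.mem_span_range_iff_exists_fun.1 h1
  choose m1 hm1 hm1' using fun j => coeff_int (c j)
  obtain ⟨j0, hj0⟩ := hlead
  set ℓ : 𝓞 K := (P j0).leadingCoeff with hℓ
  have hℓ0 : ℓ ≠ 0 := by
    intro h
    have h2 : P j0 = 0 := leadingCoeff_eq_zero.1 h
    rw [h2, natDegree_zero] at hj0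
    omega
  have hℓK : (ℓ : K) ≠ 0 := by
    intro h
    exact hℓ0 (by exact_mod_cast h)
  obtain ⟨m2, hm2, hm2'⟩ := coeff_int (C ((ℓ : K)⁻¹))
  obtain ⟨E, hE⟩ : ∃ E : ℕ, ∀ j, (c j).natDegree ≤ E :=
    ⟨∑ j, (c j).natDegree, fun j => single_le_sum (f := fun j => (c j).natDegree)
      (fun _ _ => Nat.zero_le _) (mem_univ j)⟩
  refine ⟨(∏ j, m1 j) * m2, Nat.mul_pos (Nat.pos_of_ne_zero (prod_ne_zero_iff.2 fun j _ => by
    have := hm1 j
    omega)) hm2, ?_⟩
  intro p hp hpm w hw u v huv hv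
  have hp1 : ∀ j, ¬ p ∣ m1 j := fun j h =>
    hpm ((h.trans (dvd_prod_of_mem m1 (mem_univ j))).mul_right _)
  have hp2 : ¬ p ∣ m2 := fun h => hpm (h.mul_left _)
  have hvK : (v : K) ≠ 0 := by exact_mod_cast hv
  by_contra hcon
  push Not at hcon
  have hPK : ∀ j, ((P j).map (algebraMap (𝓞 K) K)).natDegree ≤ D := fun j =>
    natDegree_map_le.trans (hP j)
  -- `v` is small
  have hv1 : fv w (v : K) < 1 := by
    have e1 : (v : K) ^ (E + D) = ∑ j, hL (c j) E u v *
        hL ((P j).map (algebraMap (𝓞 K) K)) D u v := by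
      have e2 : ∀ j, hL (c j) E u v * hL ((P j).map (algebraMap (𝓞 K) K)) D u v =
          (v : K) ^ (E + D) * (c j * (P j).map (algebraMap (𝓞 K) K)).eval ((u : K) / v) := by
        intro j
        rw [hL_eval _ _ (hE j) u v hvK, hL_eval _ _ (hPK j) u v hvK, eval_mul, pow_add]
        ring
      rw [sum_congr rfl fun j _ => e2 j, ← mul_sum, ← eval_finsetSum, hc, eval_one, mul_one]
    have e3 : fv w ((v : K) ^ (E + D)) < 1 := by
      rw [e1]
      refine fv_sum_lt w _ _ fun j _ => ?_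
      rw [map_mul]
      have h5 := fv_hL_le w (c j) E u v (hm1' j p hp (hp1 j) w hw)
      have h6 := (fv w).nonneg (hL (c j) E u v)
      have h7 := (fv w).nonneg (hL ((P j).map (algebraMap (𝓞 K) K)) D u v)
      have h8 := hcon j
      nlinarith
    rw [map_pow] at e3
    by_contra hcc
    push Not at hcc
    have := one_le_pow₀ hcc (n := E + D)
    linarith
  have hu1 : fv w (u : K) < 1 := by
    have hint : ∀ k, fv w (((P j0).map (algebraMap (𝓞 K) K)).coeff k) ≤ 1 := fun k => by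
      rw [coeff_map]
      exact fv_int' w _
    have e1 : (ℓ : K) * (u : K) ^ D = hL ((P j0).map (algebraMap (𝓞 K) K)) D u v -
        v * ∑ k ∈ range D, ((P j0).map (algebraMap (𝓞 K) K)).coeff k * (u : K) ^ k *
          (v : K) ^ (D - 1 - k) := by
      rw [hL, sum_range_succ, Nat.sub_self, pow_zero, mul_one, mul_sum]
      have e2 : ∑ k ∈ range D, ((P j0).map (algebraMap (𝓞 K) K)).coeff k * (u : K) ^ k *
          (v : K) ^ (D - k) = ∑ k ∈ range D, (v : K) *
          (((P j0).map (algebraMap (𝓞 K) K)).coeff k * (u : K) ^ k * (v : K) ^ (D - 1 - k)) := by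
        refine sum_congr rfl fun k hk => ?_
        have : D - k = (D - 1 - k) + 1 := by
          have := mem_range.1 hk
          omega
        rw [this, pow_succ]
        ring
      rw [e2, coeff_map]
      have e3 : (P j0).coeff D = ℓ := by
        rw [hℓ, leadingCoeff, hj0]
      rw [e3]
      ring
    have e4 : fv w ((ℓ : K) * (u : K) ^ D) < 1 := by
      rw [e1, sub_eq_add_neg]
      refine lt_of_le_of_lt (fv_na w _ _) (max_lt (hcon j0) ?_)
      rw [map_neg_eq_map, map_mul]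
      have h5 : fv w (∑ k ∈ range D, ((P j0).map (algebraMap (𝓞 K) K)).coeff k * (u : K) ^ k *
          (v : K) ^ (D - 1 - k)) ≤ 1 := by
        refine fv_sum_le w _ _ fun k _ => ?_
        rw [map_mul, map_mul, map_pow, map_pow]
        have h1 : fv w (u : K) ^ k ≤ 1 := pow_le_one₀ ((fv w).nonneg _) (fv_int w u)
        have h2 : fv w (v : K) ^ (D - 1 - k) ≤ 1 := pow_le_one₀ ((fv w).nonneg _) (fv_int w v)
        have h3 : 0 ≤ fv w (u : K) ^ k := pow_nonneg ((fv w).nonneg _) _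
        have h4 : 0 ≤ fv w (v : K) ^ (D - 1 - k) := pow_nonneg ((fv w).nonneg _) _
        exact mul_le_one₀ (mul_le_one₀ (hint k) h3 h1) h4 h2
      have h6 := (fv w).nonneg (v : K)
      have h7 := (fv w).nonneg (∑ k ∈ range D, ((P j0).map (algebraMap (𝓞 K) K)).coeff k *
        (u : K) ^ k * (v : K) ^ (D - 1 - k))
      nlinarith
    have hℓ1 : 1 ≤ fv w (ℓ : K) := by
      have h5 := hm2' p hp hp2 w hw 0
      rw [coeff_C_zero, map_inv₀] at h5
      by_contra hcc
      push Not at hcc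
      have h6 : 0 < fv w (ℓ : K) := (fv w).pos hℓK
      have h7 := (one_lt_inv₀ h6).2 hcc
      linarith
    by_contra hcc
    push Not at hcc
    rw [map_mul, map_pow] at e4
    have h8 := one_le_pow₀ hcc (n := D)
    have h9 : 1 ≤ fv w (ℓ : K) * fv w (u : K) ^ D := one_le_mul_of_one_le_of_one_le hℓ1 h8
    linarith
  have := max_one w u v huv
  linarith [max_lt hu1 hv1]

/-- the radical of a point with the coordinates `z j` -/
noncomputable def radN {n : ℕ} (z : Fin n → K) : ℝ :=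
  (∑ᶠ (v : HeightOneSpectrum (𝓞 K)) (_ : ¬ ∀ i j, FinitePlace.mk v (z i) = FinitePlace.mk v (z j)),
    Real.log (Ideal.absNorm v.asIdeal : ℝ)) / (Module.finrank ℚ K : ℝ)

theorem radN_ge {n : ℕ} (z : Fin n → K) (hz : ∀ j, z j ≠ 0)
    (S : Finset (HeightOneSpectrum (𝓞 K)))
    (hS : ∀ w ∈ S, ¬ ∀ i j, fv w (z i) = fv w (z j)) :
    ∑ w ∈ S, Real.log (Nv w) ≤ (Module.finrank ℚ K : ℝ) * radN z := by
  classical
  set B : Set (HeightOneSpectrum (𝓞 K)) := {w | ¬ ∀ i j, fv w (z i) = fv w (z j)} with hB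
  have hfin : B.Finite := by
    refine (Set.finite_iUnion fun j : Fin n => fv_support_finite (hz j)).subset ?_
    intro w hw
    rw [Set.mem_iUnion]
    by_contra hc
    push Not at hc
    apply hw
    have h1 : ∀ j, fv w (z j) = 1 := fun j => by
      have := hc j
      simpa using this
    intro i j
    rw [h1, h1]
  have h1 : radN z = (∑ w ∈ hfin.toFinset, Real.log (Nv w)) / (Module.finrank ℚ K : ℝ) := by
    rw [radN]
    congr 1
    exact finsum_mem_eq_finite_toFinset_sum _ hfin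
  rw [h1, mul_div_cancel₀ _ n_pos.ne']
  refine Finset.sum_le_sum_of_subset_of_nonneg (fun w hw => ?_) fun w _ _ => (log_Nv_pos w).le
  rw [Set.Finite.mem_toFinset]
  exact hS w hw

theorem exists_above (p : ℕ) (hp : p.Prime) :
    ∃ w : HeightOneSpectrum (𝓞 K), fv w (p : K) < 1 := by
  obtain ⟨w, h, -⟩ := exists_place (K := K) (0 : K) X (by
    rw [Polynomial.map_X]
    exact irreducible_X) (by simp) p 1 one_ne_zero p hp (by
    rw [leadingCoeff_X]
    intro h
    have := Int.le_of_dvd one_pos h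
    have := hp.two_le
    omega) (by
    rw [natDegree_X, Pool.Agent.X100.Mx.hom_X])
  exact ⟨w, h⟩

/-- the condition relating the factors `f i` with the coordinates: `f i` is irreducible over `ℚ` and
has a common factor with some `P j` over `K`, or `f i = 1` stands for the point at infinity, where
some `P j` vanishes -/
def Rel {κ ι : Type} (P : κ → (𝓞 K)[X]) (D : ℕ) (f : ι → ℤ[X]) (d : ι → ℕ) : Prop :=
  ∀ i, (Irreducible ((f i).map (Int.castRingHom ℚ)) ∧ d i = (f i).natDegree ∧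
      ∃ j, ¬ IsCoprime ((f i).map (Int.castRingHom K)) ((P j).map (algebraMap (𝓞 K) K))) ∨
    (f i = 1 ∧ d i = 1 ∧ ∃ j, (P j).natDegree < D)

theorem rad_lower {n : ℕ} {ι : Type} [Fintype ι] [DecidableEq ι] (P : Fin n → (𝓞 K)[X]) (D : ℕ)
    (hD : 1 ≤ D)
    (hP : ∀ j, (P j).natDegree ≤ D) (hlead : ∃ j, (P j).natDegree = D)
    (hspan : Ideal.span (Set.range fun j => (P j).map (algebraMap (𝓞 K) K)) = ⊤)
    (f : ι → ℤ[X]) (d : ι → ℕ) (hrel : Rel P D f d) :
    ∃ m : ℕ, 1 ≤ m ∧ ∀ u v : ℤ, IsCoprime u v → v ≠ 0 →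
      (∀ j, ((P j).map (algebraMap (𝓞 K) K)).eval ((u : K) / v) ≠ 0) →
      ∀ T : Finset ℕ, (∀ p ∈ T, p.Prime ∧ ¬ p ∣ m ∧
        (p : ℤ) ∣ hom (∏ k, f k) (∑ k, d k) u v) →
      ∑ p ∈ T, Real.log (p : ℝ) ≤ (Module.finrank ℚ K : ℝ) *
        radN (fun j => ((P j).map (algebraMap (𝓞 K) K)).eval ((u : K) / v)) := by
  classical
  obtain ⟨m0, hm0, hm0'⟩ := bezK P D hD hP hlead hspan
  have hloc : ∀ i, ∃ m : ℕ, 1 ≤ m ∧ ∀ u v : ℤ, v ≠ 0 → ∀ p : ℕ, p.Prime → ¬ p ∣ m →
      (p : ℤ) ∣ hom (f i) (d i) u v →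
      ∃ w : HeightOneSpectrum (𝓞 K), fv w (p : K) < 1 ∧
        ∃ j, fv w (hL ((P j).map (algebraMap (𝓞 K) K)) D u v) < 1 := by
    intro i
    rcases hrel i with ⟨h1, h2, j, h3⟩ | ⟨h1, h2, j, h3⟩
    · obtain ⟨m, hm, h4⟩ := exists_placeK (P j) D hD (hP j) (f i) h1 h3
      refine ⟨m, hm, fun u v hv p hp hpm hpf => ?_⟩
      rw [h2] at hpf
      obtain ⟨w, hw1, hw2⟩ := h4 u v hv p hp hpm hpf
      exact ⟨w, hw1, j, hw2⟩
    · refine ⟨1, le_rfl, fun u v hv p hp _ hpf => ?_⟩
      rw [h1, h2, Pool.Agent.X100.Mx.hom_C1] at hpf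
      obtain ⟨w, hw⟩ := exists_above (K := K) p hp
      refine ⟨w, hw, j, ?_⟩
      have hvK : (v : K) ≠ 0 := by exact_mod_cast hv
      have hv1 : fv w (v : K) < 1 := by
        obtain ⟨c, hc⟩ := hpf
        have : (v : K) = (p : K) * (c : K) := by
          rw [hc]
          push_cast
          rfl
        rw [this, map_mul]
        have h5 := fv_int w c
        have h6 := (fv w).nonneg (c : K)
        have h7 := (fv w).nonneg (p : K)
        nlinarith
      have hd1 : ((P j).map (algebraMap (𝓞 K) K)).natDegree ≤ D - 1 :=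
        natDegree_map_le.trans (by omega)
      have e1 : hL ((P j).map (algebraMap (𝓞 K) K)) D u v =
          v * hL ((P j).map (algebraMap (𝓞 K) K)) (D - 1) u v := by
        rw [hL_eval _ D (by omega) u v hvK, hL_eval _ (D - 1) hd1 u v hvK, ← mul_assoc,
          ← pow_succ']
        congr 2
        omega
      rw [e1, map_mul]
      have h5 := fv_hL_le w ((P j).map (algebraMap (𝓞 K) K)) (D - 1) u v (fun k => by
        rw [coeff_map]
        exact fv_int' w _)
      have h6 := (fv w).nonneg (v : K)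
      have h7 := (fv w).nonneg (hL ((P j).map (algebraMap (𝓞 K) K)) (D - 1) u v)
      nlinarith
  choose m1 hm1 hm1' using hloc
  refine ⟨m0 * ∏ i, m1 i, Nat.mul_pos hm0 (Nat.pos_of_ne_zero (prod_ne_zero_iff.2 fun i _ => by
    have := hm1 i
    omega)), ?_⟩
  intro u v huv hv hne T hT
  have hvK : (v : K) ≠ 0 := by exact_mod_cast hv
  have hfd : ∀ i, (f i).natDegree ≤ d i := by
    intro i
    rcases hrel i with ⟨-, h2, -⟩ | ⟨h1, h2, -⟩
    · exact h2.ge
    · rw [h1, natDegree_one]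
      exact Nat.zero_le _
  have hPK : ∀ j, ((P j).map (algebraMap (𝓞 K) K)).natDegree ≤ D := fun j =>
    natDegree_map_le.trans (hP j)
  have hex : ∀ p ∈ T, ∃ w : HeightOneSpectrum (𝓞 K), fv w (p : K) < 1 ∧
      ¬ ∀ i j, fv w (((P i).map (algebraMap (𝓞 K) K)).eval ((u : K) / v)) =
        fv w (((P j).map (algebraMap (𝓞 K) K)).eval ((u : K) / v)) := by
    intro p hpT
    obtain ⟨hp, hpm, hpf⟩ := hT p hpT
    rw [(hom_prod univ f d (fun i _ => hfd i) u v).2] at hpf
    have hpZ : Prime (p : ℤ) := Nat.prime_iff_prime_int.mp hp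
    obtain ⟨i, -, hi⟩ := (hpZ.dvd_finsetProd_iff _).1 hpf
    have hp0 : ¬ p ∣ m0 := fun h => hpm (h.mul_right _)
    have hp1 : ¬ p ∣ m1 i := fun h => hpm ((h.trans (dvd_prod_of_mem m1 (mem_univ i))).mul_left _)
    obtain ⟨w, hw1, j, hw2⟩ := hm1' i u v hv p hp hp1 hi
    obtain ⟨j', hw3⟩ := hm0' p hp hp0 w hw1 u v huv hv
    refine ⟨w, hw1, fun hall => ?_⟩
    have h1 := hall j j'
    rw [hL_eval _ _ (hPK j) u v hvK, map_mul] at hw2
    rw [hL_eval _ _ (hPK j') u v hvK, map_mul] at hw3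
    rw [h1] at hw2
    linarith
  have hnon : Nonempty (HeightOneSpectrum (𝓞 K)) := by
    obtain ⟨w, -⟩ := exists_above (K := K) 2 Nat.prime_two
    exact ⟨w⟩
  choose! ω hω1 hω2 using hex
  have hinj : Set.InjOn ω (T : Set ℕ) := by
    intro p hp q hq hpq
    have h1 := hω1 p hp
    rw [hpq] at h1
    exact uniq (ω q) p q (hT p hp).1 (hT q hq).1 h1 (hω1 q hq)
  calc ∑ p ∈ T, Real.log (p : ℝ) ≤ ∑ p ∈ T, Real.log (Nv (ω p)) := by
        refine sum_le_sum fun p hp => ?_
        have h1 := (hT p hp).1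
        have h2 := dvd_norm (ω p) p h1 (hω1 p hp)
        apply Real.log_le_log (by exact_mod_cast h1.pos)
        have h3 := NumberField.HeightOneSpectrum.one_lt_absNorm (ω p)
        have h4 := Nat.le_of_dvd (by omega) h2
        rw [Nv]
        exact_mod_cast h4
    _ = ∑ w ∈ T.image ω, Real.log (Nv w) := by rw [Finset.sum_image hinj]
    _ ≤ _ := by
        refine radN_ge _ hne _ fun w hw => ?_
        obtain ⟨p, hp, rfl⟩ := mem_image.1 hw
        exact hω2 p hp

/-- **points of a rational curve over `K` at rational parameters, counted by the radical** -/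
theorem count {n : ℕ} {ι : Type} [Fintype ι] [DecidableEq ι] (P : Fin n → (𝓞 K)[X]) (D : ℕ)
    (hD : 1 ≤ D)
    (hP : ∀ j, (P j).natDegree ≤ D) (hlead : ∃ j, (P j).natDegree = D)
    (hspan : Ideal.span (Set.range fun j => (P j).map (algebraMap (𝓞 K) K)) = ⊤)
    (f : ι → ℤ[X]) (d : ι → ℕ) (hrel : Rel P D f d) {θ : ℝ} (hcnt : Cnt f d θ) :
    ∃ (C : ℝ) (e : ℕ), 0 < C ∧ ∀ R : ℝ, 1 ≤ R → ∀ S : Set ℚ,
      (∀ x ∈ S, (∀ j, ((P j).map (algebraMap (𝓞 K) K)).eval (x : K) ≠ 0) ∧
        radN (fun j => ((P j).map (algebraMap (𝓞 K) K)).eval (x : K)) ≤ Real.log R) →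
      S.Finite ∧ (S.ncard : ℝ) ≤
        C * R ^ ((Module.finrank ℚ K : ℝ) * θ) * (1 + Real.log R) ^ e := by
  classical
  obtain ⟨m, hm, hlow⟩ := rad_lower P D hD hP hlead hspan f d hrel
  obtain ⟨C, e, hC, hmain⟩ := hcnt m hm
  set N : ℝ := (Module.finrank ℚ K : ℝ) with hN
  have hN1 : 1 ≤ N := by
    rw [hN]
    exact_mod_cast (Module.finrank_pos : 0 < Module.finrank ℚ K)
  refine ⟨C * N ^ e, e, by positivity, ?_⟩
  intro R hR S hS
  have hR0 : 0 < R := by linarith
  have hlogR : 0 ≤ Real.log R := Real.log_nonneg hR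
  refine fin_of_bound S _ fun s hs => ?_
  let G : ℚ → ℤ × ℤ := fun x => (x.num, (x.den : ℤ))
  have hinj : Function.Injective G := by
    intro x y h
    have h1 : x.num = y.num := congrArg Prod.fst h
    have h2 : (x.den : ℤ) = (y.den : ℤ) := congrArg Prod.snd h
    exact Rat.ext h1 (by exact_mod_cast h2)
  have hRN : 1 ≤ R ^ N := Real.one_le_rpow hR (by linarith)
  have h1 := hmain (R ^ N) hRN (s.image G) (by
    intro q hq
    obtain ⟨x, hx, rfl⟩ := mem_image.mp hq
    obtain ⟨hx1, hx2⟩ := hS x (hs hx)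
    have hcop : IsCoprime x.num (x.den : ℤ) := by
      rw [Int.isCoprime_iff_gcd_eq_one]
      exact x.reduced
    have hden : (x.den : ℤ) ≠ 0 := by exact_mod_cast x.den_nz
    have hxeq : (x : K) = ((x.num : ℤ) : K) / (((x.den : ℤ)) : K) := by
      push_cast
      exact (Rat.cast_def x)
    have h2 := hlow x.num (x.den : ℤ) hcop hden (fun j => by rw [← hxeq]; exact hx1 j)
    rw [← hxeq] at h2
    have h3 : ∀ T : Finset ℕ, (∀ p ∈ T, p.Prime ∧ ¬ p ∣ m ∧
        (p : ℤ) ∣ hom (∏ k, f k) (∑ k, d k) x.num x.den) →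
        ∑ p ∈ T, Real.log (p : ℝ) ≤ N * Real.log R := fun T hT =>
      (h2 T hT).trans (mul_le_mul_of_nonneg_left hx2 (by linarith))
    have hne : hom (∏ k, f k) (∑ k, d k) x.num x.den ≠ 0 := by
      intro h0
      have hinf : (Set.ofPred Nat.Prime \ {p | p ∣ m}).Infinite :=
        Nat.infinite_setOfPred_prime.sdiff ((Nat.divisors m).finite_toSet.subset fun p hp =>
          Finset.mem_coe.2 (Nat.mem_divisors.2 ⟨hp, by omega⟩))
      obtain ⟨k, hk⟩ := exists_nat_gt (N * Real.log R / Real.log 2)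
      obtain ⟨T, hT1, hT2⟩ := hinf.exists_subset_card_eq k
      have h4 := h3 T fun p hp => by
        obtain ⟨h5, h6⟩ := hT1 (Finset.mem_coe.2 hp)
        exact ⟨h5, h6, by rw [h0]; exact dvd_zero _⟩
      have hl2 : 0 < Real.log 2 := Real.log_pos (by norm_num)
      have h7 : (k : ℝ) * Real.log 2 ≤ ∑ p ∈ T, Real.log (p : ℝ) := by
        rw [← hT2, ← nsmul_eq_mul, ← sum_const]
        refine sum_le_sum fun p hp => ?_
        have h8 : p.Prime := (hT1 (Finset.mem_coe.2 hp)).1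
        exact Real.log_le_log (by norm_num) (by exact_mod_cast h8.two_le)
      rw [div_lt_iff₀ hl2] at hk
      linarith
    refine ⟨hcop, hne, ?_⟩
    have h4 := h3 ((hom (∏ k, f k) (∑ k, d k) x.num x.den).natAbs.primeFactors.filter
      (fun p => ¬ p ∣ m)) (fun p hp => by
        obtain ⟨h5, h6⟩ := mem_filter.1 hp
        exact ⟨Nat.prime_of_mem_primeFactors h5, h6,
          Int.natCast_dvd.2 (Nat.dvd_of_mem_primeFactors h5)⟩)
    have hlr : Real.log (radp m (hom (∏ k, f k) (∑ k, d k) x.num x.den).natAbs : ℝ) =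
        ∑ p ∈ (hom (∏ k, f k) (∑ k, d k) x.num x.den).natAbs.primeFactors.filter
          (fun p => ¬ p ∣ m), Real.log (p : ℝ) := by
      unfold radp
      rw [Nat.cast_prod, Real.log_prod]
      intro p hp
      exact_mod_cast (Nat.prime_of_mem_primeFactors (mem_filter.mp hp).1).ne_zero
    have hpos : (0 : ℝ) < (radp m (hom (∏ k, f k) (∑ k, d k) x.num x.den).natAbs : ℝ) := by
      exact_mod_cast radp_pos _ _
    rw [← hlr] at h4
    rw [← Real.log_rpow hR0] at h4
    exact (Real.log_le_log_iff hpos (by positivity)).1 h4)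
  rw [card_image_of_injective _ hinj] at h1
  refine h1.trans ?_
  rw [Real.log_rpow hR0, ← Real.rpow_mul hR0.le]
  have h5 : (1 + N * Real.log R) ^ e ≤ (N * (1 + Real.log R)) ^ e :=
    pow_le_pow_left₀ (by nlinarith) (by nlinarith) _
  rw [mul_pow] at h5
  calc C * R ^ (N * θ) * (1 + N * Real.log R) ^ e ≤
      C * R ^ (N * θ) * (N ^ e * (1 + Real.log R) ^ e) :=
        mul_le_mul_of_nonneg_left h5 (by positivity)
    _ = _ := by ring

end Pool.Agent.X100.NK
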