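import Pool.Agent.W563.QD.RADK
import Pool.Agent.X100.Nt.Core

/-!
# Values of forms over a number field at rational points: primes dividing a value
-/

set_option autoImplicit false

namespace Pool.Agent.X100.NK

open NumberField IsDedekindDomain Finset Polynomial
open Pool.Agent.W4.CF Pool.Agent.W4.VC Pool.Agent.H691R3 Pool.Agent.W240.CD
open Pool.Agent.W563.QD (exists_place fv_one fv_add_eq)

section gen

variable {L : Type} [Field L]

/-- the value at `(u, v)` of the form of degree `D` given by `G` -/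
noncomputable def hL (G : L[X]) (D : ℕ) (u v : ℤ) : L :=
  ∑ k ∈ range (D + 1), G.coeff k * (u : L) ^ k * (v : L) ^ (D - k)

theorem hL_eval (G : L[X]) (D : ℕ) (hG : G.natDegree ≤ D) (u v : ℤ) (hv : (v : L) ≠ 0) :
    hL G D u v = (v : L) ^ D * G.eval ((u : L) / v) := by
  rw [eval_eq_sum_range' (n := D + 1) (Nat.lt_succ_of_le hG)]
  unfold hL
  rw [mul_sum]
  refine sum_congr rfl fun j hj => ?_
  have hjn : j ≤ D := Nat.lt_succ_iff.mp (mem_range.mp hj)
  rw [div_pow]
  have h1 : (v : L) ^ D = (v : L) ^ (D - j) * (v : L) ^ j := by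
    rw [← pow_add, Nat.sub_add_cancel hjn]
  rw [h1]
  field_simp

end gen

variable {K : Type} [Field K] [NumberField K]

theorem fv_sum_le (w : HeightOneSpectrum (𝓞 K)) {ι : Type} (s : Finset ι) (g : ι → K)
    (h : ∀ i ∈ s, fv w (g i) ≤ 1) : fv w (∑ i ∈ s, g i) ≤ 1 := by
  classical
  induction s using Finset.induction_on with
  | empty => simp
  | insert i s hi ih =>
    rw [sum_insert hi]
    refine (fv_na w _ _).trans (max_le (h i (mem_insert_self i s)) ?_)
    exact ih fun j hj => h j (mem_insert_of_mem hj)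

theorem fv_hL_le (w : HeightOneSpectrum (𝓞 K)) (G : K[X]) (D : ℕ) (u v : ℤ)
    (h : ∀ k, fv w (G.coeff k) ≤ 1) : fv w (hL G D u v) ≤ 1 := by
  refine fv_sum_le w _ _ fun k _ => ?_
  rw [map_mul, map_mul, map_pow, map_pow]
  have h1 : fv w (u : K) ^ k ≤ 1 := pow_le_one₀ ((fv w).nonneg _) (fv_int w u)
  have h2 : fv w (v : K) ^ (D - k) ≤ 1 := pow_le_one₀ ((fv w).nonneg _) (fv_int w v)
  have h3 : 0 ≤ fv w (u : K) ^ k := pow_nonneg ((fv w).nonneg _) _
  have h4 : 0 ≤ fv w (v : K) ^ (D - k) := pow_nonneg ((fv w).nonneg _) _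
  exact mul_le_one₀ (mul_le_one₀ (h k) h3 h1) h4 h2

/-- outside a finite set of rational primes the coefficients of a polynomial are integral -/
theorem coeff_int (G : K[X]) : ∃ m : ℕ, 1 ≤ m ∧ ∀ p : ℕ, p.Prime → ¬ p ∣ m →
    ∀ w : HeightOneSpectrum (𝓞 K), fv w (p : K) < 1 → ∀ k, fv w (G.coeff k) ≤ 1 := by
  classical
  have hfin : (⋃ k ∈ G.support, {w : HeightOneSpectrum (𝓞 K) | fv w (G.coeff k) ≠ 1}).Finite := by
    refine Set.Finite.biUnion G.support.finite_toSet fun k hk => ?_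
    exact fv_support_finite (mem_support_iff.1 hk)
  refine ⟨∏ w ∈ hfin.toFinset, Ideal.absNorm w.asIdeal, ?_, ?_⟩
  · refine Nat.one_le_iff_ne_zero.2 (Finset.prod_ne_zero_iff.2 fun w _ => ?_)
    have := NumberField.HeightOneSpectrum.one_lt_absNorm w
    omega
  · intro p hp hpm w hw k
    by_contra hc
    push Not at hc
    apply hpm
    have hk : k ∈ G.support := by
      rw [mem_support_iff]
      intro h0
      rw [h0, map_zero] at hc
      linarith
    have hwm : w ∈ hfin.toFinset := by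
      rw [Set.Finite.mem_toFinset]
      exact Set.mem_biUnion (Finset.mem_coe.2 hk) (ne_of_gt hc)
    exact (dvd_norm w p hp hw).trans (Finset.dvd_prod_of_mem
      (fun w : HeightOneSpectrum (𝓞 K) => Ideal.absNorm w.asIdeal) hwm)

/-- an element of `K`, small at a place of `L`, is small at the place of `K` below -/
theorem below {L : Type} [Field L] [NumberField L] [Algebra K L] (w' : HeightOneSpectrum (𝓞 L))
    (p : ℕ) (hp : p.Prime) (hw : fv w' (p : L) < 1) (x : 𝓞 K)
    (hx : fv w' (algebraMap K L (x : K)) < 1) :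
    ∃ w : HeightOneSpectrum (𝓞 K), fv w (p : K) < 1 ∧ fv w (x : K) < 1 := by
  set P : Ideal (𝓞 K) := w'.asIdeal.under (𝓞 K) with hP
  have hpP : (p : 𝓞 K) ∈ P := by
    rw [hP, Ideal.mem_under, map_natCast]
    exact (fv_nat_lt_iff w' p).1 hw
  have hP0 : P ≠ ⊥ := by
    intro h
    rw [h, Ideal.mem_bot] at hpP
    exact hp.ne_zero (by exact_mod_cast hpP)
  have hPp : P.IsPrime := by
    rw [hP]
    have := w'.isPrime
    infer_instance
  refine ⟨⟨P, hPp, hP0⟩, (fv_nat_lt_iff _ p).2 hpP, (fv_lt_iff _ x).2 ?_⟩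
  show x ∈ P
  rw [hP, Ideal.mem_under]
  exact (fv_lt_iff w' (algebraMap (𝓞 K) (𝓞 L) x)).1 hx

/-- a common root in an extension -/
theorem exists_placeL {L : Type} [Field L] [NumberField L] [Algebra K L] (α : L)
    (F : (𝓞 K)[X]) (D : ℕ) (hD : 1 ≤ D) (hF : F.natDegree ≤ D) (f : ℤ[X])
    (hf : Irreducible (f.map (Int.castRingHom ℚ))) (h0 : aeval α f = 0)
    (h1 : aeval α (F.map (algebraMap (𝓞 K) K)) = 0) :
    ∃ m : ℕ, 1 ≤ m ∧ ∀ u v : ℤ, v ≠ 0 → ∀ p : ℕ, p.Prime → ¬ p ∣ m →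
      (p : ℤ) ∣ hom f f.natDegree u v →
      ∃ w : HeightOneSpectrum (𝓞 K), fv w (p : K) < 1 ∧
        fv w (hL (F.map (algebraMap (𝓞 K) K)) D u v) < 1 := by
  set FL : L[X] := (F.map (algebraMap (𝓞 K) K)).map (algebraMap K L) with hFL
  have hroot : FL.IsRoot α := by
    rw [IsRoot.def, hFL, eval_map_algebraMap]
    exact h1
  obtain ⟨H, hH⟩ := dvd_iff_isRoot.2 hroot
  have hHd : H.natDegree ≤ D - 1 := by
    by_cases hH0 : H = 0
    · rw [hH0, natDegree_zero]
      omega
    · have h2 : FL.natDegree ≤ D := natDegree_map_le.trans (natDegree_map_le.trans hF)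
      rw [hH, natDegree_mul (X_sub_C_ne_zero α) hH0, natDegree_X_sub_C] at h2
      omega
  obtain ⟨m1, hm1, hm1'⟩ := coeff_int H
  have hl0 : f.leadingCoeff ≠ 0 := by
    intro h
    have h2 : f = 0 := leadingCoeff_eq_zero.1 h
    have h3 := hf.ne_zero
    rw [h2, Polynomial.map_zero] at h3
    exact h3 rfl
  refine ⟨m1 * f.leadingCoeff.natAbs, Nat.mul_pos hm1 (Nat.pos_of_ne_zero
    (Int.natAbs_ne_zero.2 hl0)), ?_⟩
  intro u v hv p hp hpm hpf
  have hp1 : ¬ p ∣ m1 := fun h => hpm (h.mul_right _)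
  have hp2 : ¬ (p : ℤ) ∣ f.leadingCoeff := fun h => hpm ((Int.natCast_dvd.1 h).mul_left _)
  obtain ⟨w', hw1, hw2⟩ := exists_place α f hf h0 u v hv p hp hp2 hpf
  have hvL : (v : L) ≠ 0 := by exact_mod_cast hv
  have hvK : (v : K) ≠ 0 := by exact_mod_cast hv
  -- the value in `𝓞 K`
  set x : 𝓞 K := ∑ k ∈ range (D + 1), F.coeff k * (u : 𝓞 K) ^ k * (v : 𝓞 K) ^ (D - k) with hx
  have hxK : (x : K) = hL (F.map (algebraMap (𝓞 K) K)) D u v := by
    rw [hx, hL]
    simp [map_sum]
  have hxL : algebraMap K L (x : K) = ((u : L) - v * α) * hL H (D - 1) u v := by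
    have e1 : algebraMap K L (x : K) = hL FL D u v := by
      rw [hxK, hL, hL, map_sum]
      refine sum_congr rfl fun k _ => ?_
      rw [hFL, map_mul, map_mul, map_pow, map_pow, coeff_map (algebraMap K L), map_intCast,
        map_intCast]
    rw [e1, hL_eval FL D (natDegree_map_le.trans (natDegree_map_le.trans hF)) u v hvL, hH, eval_mul,
      hL_eval H (D - 1) hHd u v hvL]
    have e2 : (v : L) ^ D = v * (v : L) ^ (D - 1) := by
      rw [← pow_succ']
      congr 1
      omega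
    rw [e2, eval_sub, eval_X, eval_C]
    field_simp
  obtain ⟨w, hw3, hw4⟩ := below w' p hp hw1 x (by
    rw [hxL, map_mul]
    have h5 := fv_hL_le w' H (D - 1) u v (hm1' p hp hp1 w' hw1)
    have h6 := (fv w').nonneg ((u : L) - v * α)
    have h7 := (fv w').nonneg (hL H (D - 1) u v)
    nlinarith)
  exact ⟨w, hw3, by rw [← hxK]; exact hw4⟩

/-- a form with rational coefficients and a form over `K` with a common factor -/
theorem exists_placeK (F : (𝓞 K)[X]) (D : ℕ) (hD : 1 ≤ D) (hF : F.natDegree ≤ D) (f : ℤ[X])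
    (hf : Irreducible (f.map (Int.castRingHom ℚ)))
    (hc : ¬ IsCoprime (f.map (Int.castRingHom K)) (F.map (algebraMap (𝓞 K) K))) :
    ∃ m : ℕ, 1 ≤ m ∧ ∀ u v : ℤ, v ≠ 0 → ∀ p : ℕ, p.Prime → ¬ p ∣ m →
      (p : ℤ) ∣ hom f f.natDegree u v →
      ∃ w : HeightOneSpectrum (𝓞 K), fv w (p : K) < 1 ∧
        fv w (hL (F.map (algebraMap (𝓞 K) K)) D u v) < 1 := by
  have hf0 : f ≠ 0 := by
    rintro rfl
    rw [Polynomial.map_zero] at hf
    exact hf.ne_zero rfl
  have hfK : f.map (Int.castRingHom K) ≠ 0 :=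
    (Polynomial.map_ne_zero_iff (by exact Int.cast_injective)).2 hf0
  obtain ⟨q, hq, hq1, hq2⟩ : ∃ q : K[X], Irreducible q ∧ q ∣ f.map (Int.castRingHom K) ∧
      q ∣ F.map (algebraMap (𝓞 K) K) := by
    by_contra hcon
    push Not at hcon
    exact hc (isCoprime_of_irreducible_dvd (fun h => hfK h.1) fun z hz hz1 hz2 =>
      hcon z hz hz1 hz2)
  haveI := Fact.mk hq
  haveI : Module.Finite K (AdjoinRoot q) := (AdjoinRoot.powerBasis hq.ne_zero).finite
  haveI : NumberField (AdjoinRoot q) := NumberField.of_module_finite K (AdjoinRoot q)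
  have hr : aeval (AdjoinRoot.root q) q = 0 := by
    rw [AdjoinRoot.aeval_eq, AdjoinRoot.mk_self]
  refine exists_placeL (L := AdjoinRoot q) (AdjoinRoot.root q) F D hD hF f hf ?_ ?_
  · obtain ⟨r, hr'⟩ := hq1
    have h1 : aeval (AdjoinRoot.root q) (f.map (Int.castRingHom K)) = 0 := by
      rw [hr', map_mul, hr, zero_mul]
    have h2 : (Int.castRingHom K) = algebraMap ℤ K := rfl
    rwa [h2, aeval_map_algebraMap] at h1
  · obtain ⟨r, hr'⟩ := hq2
    rw [hr', map_mul, hr, zero_mul]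

end Pool.Agent.X100.NK
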