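import Pool.Agent.X100.NK.Gen

/-!
# Divisors on the product of two lines: local heights and restriction to rational curves
-/

set_option autoImplicit false

namespace Pool.Agent.X100.NK.PP

open NumberField IsDedekindDomain Finset Polynomial
open Pool.Agent.W4.CF Pool.Agent.W4.VC Pool.Agent.H691R3 Pool.Agent.W240.CD
open Pool.Agent.X100.Nt (Cnt)
open Pool.Agent.X100.NK

variable {K : Type} [Field K] [NumberField K]

/-- bihomogeneous of bidegree `(q, r)` -/
def Bih {R : Type} [CommRing R] (F : MvPolynomial (Fin 2 ⊕ Fin 2) R) (q r : ℕ) : Prop :=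
  F.IsWeightedHomogeneous (Sum.elim (fun _ : Fin 2 => ((1, 0) : ℕ × ℕ))
      (fun _ : Fin 2 => ((0, 1) : ℕ × ℕ))) (q, r)

theorem bih_exp {R : Type} [CommRing R] {F : MvPolynomial (Fin 2 ⊕ Fin 2) R} {q r : ℕ}
    (h : Bih F q r) (e : (Fin 2 ⊕ Fin 2) →₀ ℕ) (he : e ∈ F.support) :
    e (Sum.inl 0) + e (Sum.inl 1) = q ∧ e (Sum.inr 0) + e (Sum.inr 1) = r := by
  have h1 := h (MvPolynomial.mem_support_iff.1 he)
  rw [Finsupp.weight_apply, Finsupp.sum_fintype _ _ (fun i => by simp)] at h1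
  rw [Fintype.sum_sum_type, Fin.sum_univ_two, Fin.sum_univ_two] at h1
  simp only [Sum.elim_inl, Sum.elim_inr] at h1
  have h2 := congrArg Prod.fst h1
  have h3 := congrArg Prod.snd h1
  simp at h2 h3
  exact ⟨h2, h3⟩

theorem aeval_expand {R S : Type} [CommRing R] [CommRing S] [Algebra R S]
    (F : MvPolynomial (Fin 2 ⊕ Fin 2) R) (s t : Fin 2 → S) :
    MvPolynomial.aeval (Sum.elim s t) F = ∑ e ∈ F.support, algebraMap R S (F.coeff e) *
      ((s 0 ^ e (Sum.inl 0) * s 1 ^ e (Sum.inl 1)) *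
        (t 0 ^ e (Sum.inr 0) * t 1 ^ e (Sum.inr 1))) := by
  rw [MvPolynomial.aeval_def, MvPolynomial.eval₂_eq']
  refine sum_congr rfl fun e _ => ?_
  rw [Fintype.prod_sum_type, Fin.prod_univ_two, Fin.prod_univ_two]
  rfl

omit [NumberField K] in
theorem degree_le (F : MvPolynomial (Fin 2 ⊕ Fin 2) (𝓞 K)) {q r : ℕ} (h : Bih F q r)
    (A B : Fin 2 → (𝓞 K)[X]) {a b : ℕ} (hA : ∀ i, (A i).natDegree ≤ a)
    (hB : ∀ i, (B i).natDegree ≤ b) :
    (MvPolynomial.aeval (Sum.elim A B) F : (𝓞 K)[X]).natDegree ≤ a * q + b * r := by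
  rw [aeval_expand]
  refine natDegree_sum_le_of_forall_le _ _ fun e he => ?_
  obtain ⟨h1, h2⟩ := bih_exp h e he
  have hp : ∀ (P : (𝓞 K)[X]) (k n : ℕ), P.natDegree ≤ k → (P ^ n).natDegree ≤ k * n := by
    intro P k n hk
    refine natDegree_pow_le.trans ?_
    rw [mul_comm]
    exact Nat.mul_le_mul_right n hk
  have h3 := hp _ _ (e (Sum.inl 0)) (hA 0)
  have h4 := hp _ _ (e (Sum.inl 1)) (hA 1)
  have h5 := hp _ _ (e (Sum.inr 0)) (hB 0)
  have h6 := hp _ _ (e (Sum.inr 1)) (hB 1)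
  have h7 : (algebraMap (𝓞 K) (𝓞 K)[X] (F.coeff e)).natDegree = 0 := natDegree_C _
  refine natDegree_mul_le.trans ?_
  rw [h7, zero_add]
  refine natDegree_mul_le.trans ?_
  refine (add_le_add (natDegree_mul_le.trans (add_le_add h3 h4))
    (natDegree_mul_le.trans (add_le_add h5 h6))).trans ?_
  rw [← h1, ← h2]
  exact le_of_eq (by ring)

omit [NumberField K] in
theorem eval_restriction (F : MvPolynomial (Fin 2 ⊕ Fin 2) (𝓞 K)) (A B : Fin 2 → (𝓞 K)[X])
    (x : K) :
    ((MvPolynomial.aeval (Sum.elim A B) F : (𝓞 K)[X]).map (algebraMap (𝓞 K) K)).eval x =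
      MvPolynomial.aeval (Sum.elim (fun i => ((A i).map (algebraMap (𝓞 K) K)).eval x)
        (fun i => ((B i).map (algebraMap (𝓞 K) K)).eval x)) F := by
  rw [aeval_expand, aeval_expand, Polynomial.map_sum, eval_finsetSum]
  refine sum_congr rfl fun e _ => ?_
  simp only [Polynomial.map_mul, Polynomial.map_pow, eval_mul, eval_pow, algebraMap_eq,
    Polynomial.map_C, eval_C]

/-- the maximum of the absolute values of two coordinates -/
noncomputable def mx (v : HeightOneSpectrum (𝓞 K)) (s : Fin 2 → K) : ℝ :=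
  max (FinitePlace.mk v (s 0)) (FinitePlace.mk v (s 1))

theorem mx_eq (v : HeightOneSpectrum (𝓞 K)) (s : Fin 2 → K) :
    mx v s = max (fv v (s 0)) (fv v (s 1)) := rfl

omit [NumberField K] in
theorem pair_ne (s : Fin 2 → K) (hs : s ≠ 0) : ((s 0, s 1) : K × K) ≠ (0, 0) := by
  intro h
  apply hs
  have h0 : s 0 = 0 := congrArg Prod.fst h
  have h1 : s 1 = 0 := congrArg Prod.snd h
  have h2 : ∀ i : Fin 2, s i = 0 := by
    rw [Fin.forall_fin_two]
    exact ⟨h0, h1⟩
  exact funext h2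

theorem mx_pos (v : HeightOneSpectrum (𝓞 K)) (s : Fin 2 → K) (hs : s ≠ 0) : 0 < mx v s := by
  rw [mx_eq]
  exact max_pos (fv v) (p := (s 0, s 1)) (pair_ne s hs)

theorem mx_finite (s : Fin 2 → K) (hs : s ≠ 0) :
    {v : HeightOneSpectrum (𝓞 K) | mx v s ≠ 1}.Finite := by
  have h := max_support_finite (K := K) (p := (s 0, s 1)) (pair_ne s hs)
  refine h.subset ?_
  intro v hv
  rw [Set.mem_ofPred_eq] at hv ⊢
  rw [mx_eq] at hv
  exact hv

theorem mx_smul (v : HeightOneSpectrum (𝓞 K)) (c : K) (s : Fin 2 → K) :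
    mx v (fun i => c * s i) = fv v c * mx v s := by
  unfold mx
  have e1 : ∀ x, FinitePlace.mk v x = fv v x := fun x => rfl
  simp only [e1, map_mul]
  rw [mul_max_of_nonneg _ _ ((fv v).nonneg c)]

theorem value_le (F : MvPolynomial (Fin 2 ⊕ Fin 2) (𝓞 K)) {q r : ℕ} (h : Bih F q r)
    (v : HeightOneSpectrum (𝓞 K)) (s t : Fin 2 → K) :
    fv v (MvPolynomial.aeval (Sum.elim s t) F) ≤ mx v s ^ q * mx v t ^ r := by
  classical
  rw [aeval_expand]
  have hms : 0 ≤ mx v s := (le_max_left _ _).trans' ((fv v).nonneg (s 0))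
  have hmt : 0 ≤ mx v t := (le_max_left _ _).trans' ((fv v).nonneg (t 0))
  have key : ∀ e ∈ F.support, fv v (algebraMap (𝓞 K) K (F.coeff e) *
      ((s 0 ^ e (Sum.inl 0) * s 1 ^ e (Sum.inl 1)) *
        (t 0 ^ e (Sum.inr 0) * t 1 ^ e (Sum.inr 1)))) ≤ mx v s ^ q * mx v t ^ r := by
    intro e he
    obtain ⟨h1, h2⟩ := bih_exp h e he
    simp only [map_mul, map_pow]
    have h3 : fv v (algebraMap (𝓞 K) K (F.coeff e)) ≤ 1 := fv_int' v _
    have i0 : fv v (s 0) ≤ mx v s := le_max_left _ _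
    have i1 : fv v (s 1) ≤ mx v s := le_max_right _ _
    have j0 : fv v (t 0) ≤ mx v t := le_max_left _ _
    have j1 : fv v (t 1) ≤ mx v t := le_max_right _ _
    have n := fun z : K => (fv v).nonneg z
    rw [← h1, ← h2, pow_add, pow_add]
    have a0 := pow_le_pow_left₀ (n _) i0 (e (Sum.inl 0))
    have a1 := pow_le_pow_left₀ (n _) i1 (e (Sum.inl 1))
    have b0 := pow_le_pow_left₀ (n _) j0 (e (Sum.inr 0))
    have b1 := pow_le_pow_left₀ (n _) j1 (e (Sum.inr 1))
    have c0 := pow_nonneg (n (s 0)) (e (Sum.inl 0))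
    have c1 := pow_nonneg (n (s 1)) (e (Sum.inl 1))
    have d0 := pow_nonneg (n (t 0)) (e (Sum.inr 0))
    have d1 := pow_nonneg (n (t 1)) (e (Sum.inr 1))
    have e1 : fv v (s 0) ^ e (Sum.inl 0) * fv v (s 1) ^ e (Sum.inl 1) ≤
        mx v s ^ e (Sum.inl 0) * mx v s ^ e (Sum.inl 1) := mul_le_mul a0 a1 c1 (by positivity)
    have e2 : fv v (t 0) ^ e (Sum.inr 0) * fv v (t 1) ^ e (Sum.inr 1) ≤
        mx v t ^ e (Sum.inr 0) * mx v t ^ e (Sum.inr 1) := mul_le_mul b0 b1 d1 (by positivity)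
    have e3 := mul_le_mul e1 e2 (mul_nonneg d0 d1) (by positivity)
    refine (mul_le_of_le_one_left (mul_nonneg (mul_nonneg c0 c1) (mul_nonneg d0 d1)) h3).trans e3
  have : ∀ S ⊆ F.support, fv v (∑ e ∈ S, algebraMap (𝓞 K) K (F.coeff e) *
      ((s 0 ^ e (Sum.inl 0) * s 1 ^ e (Sum.inl 1)) *
        (t 0 ^ e (Sum.inr 0) * t 1 ^ e (Sum.inr 1)))) ≤ mx v s ^ q * mx v t ^ r := by
    intro S
    induction S using Finset.induction_on with
    | empty =>
      intro _
      rw [sum_empty, map_zero]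
      positivity
    | insert i S hi ih =>
      intro hS
      rw [sum_insert hi]
      exact (fv_na v _ _).trans (max_le (key i (hS (mem_insert_self i S)))
        (ih fun j hj => hS (mem_insert_of_mem hj)))
  exact this _ (Subset.refl _)

/-- the local height at a finite place -/
noncomputable def lh (F : MvPolynomial (Fin 2 ⊕ Fin 2) (𝓞 K)) (q r : ℕ)
    (v : HeightOneSpectrum (𝓞 K)) (s t : Fin 2 → K) : ℝ :=
  -Real.log (FinitePlace.mk v (MvPolynomial.aeval (Sum.elim s t) F) /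
    (max (FinitePlace.mk v (s 0)) (FinitePlace.mk v (s 1)) ^ q *
      max (FinitePlace.mk v (t 0)) (FinitePlace.mk v (t 1)) ^ r))

/-- the truncated counting function -/
noncomputable def cnt (F : MvPolynomial (Fin 2 ⊕ Fin 2) (𝓞 K)) (q r : ℕ) (s t : Fin 2 → K) : ℝ :=
  ∑ᶠ v : HeightOneSpectrum (𝓞 K),
    min (Real.log (Ideal.absNorm v.asIdeal : ℝ)) (lh F q r v s t)

theorem lh_eq (F : MvPolynomial (Fin 2 ⊕ Fin 2) (𝓞 K)) (q r : ℕ)
    (v : HeightOneSpectrum (𝓞 K)) (s t : Fin 2 → K) (hs : s ≠ 0) (ht : t ≠ 0)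
    (hF : MvPolynomial.aeval (Sum.elim s t) F ≠ (0 : K)) :
    lh F q r v s t = q * Real.log (mx v s) + r * Real.log (mx v t) -
      Real.log (fv v (MvPolynomial.aeval (Sum.elim s t) F)) := by
  have h1 := mx_pos v s hs
  have h2 := mx_pos v t ht
  have h3 := (fv v).pos hF
  have e : lh F q r v s t = -Real.log (fv v (MvPolynomial.aeval (Sum.elim s t) F) /
    (mx v s ^ q * mx v t ^ r)) := rfl
  rw [e, Real.log_div h3.ne' (mul_pos (pow_pos h1 q) (pow_pos h2 r)).ne',
    Real.log_mul (pow_pos h1 q).ne' (pow_pos h2 r).ne', Real.log_pow, Real.log_pow]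
  ring

theorem lh_nonneg (F : MvPolynomial (Fin 2 ⊕ Fin 2) (𝓞 K)) {q r : ℕ} (hb : Bih F q r)
    (v : HeightOneSpectrum (𝓞 K)) (s t : Fin 2 → K) (hs : s ≠ 0) (ht : t ≠ 0)
    (hF : MvPolynomial.aeval (Sum.elim s t) F ≠ (0 : K)) : 0 ≤ lh F q r v s t := by
  have h1 := mx_pos v s hs
  have h2 := mx_pos v t ht
  have h3 := (fv v).pos hF
  have h4 := value_le F hb v s t
  have h5 := Real.log_le_log h3 h4
  rw [Real.log_mul (pow_pos h1 q).ne' (pow_pos h2 r).ne', Real.log_pow, Real.log_pow] at h5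
  rw [lh_eq F q r v s t hs ht hF]
  linarith

theorem cnt_support (F : MvPolynomial (Fin 2 ⊕ Fin 2) (𝓞 K)) (q r : ℕ)
    (s t : Fin 2 → K) (hs : s ≠ 0) (ht : t ≠ 0)
    (hF : MvPolynomial.aeval (Sum.elim s t) F ≠ (0 : K)) :
    (Function.support fun v : HeightOneSpectrum (𝓞 K) =>
      min (Real.log (Ideal.absNorm v.asIdeal : ℝ)) (lh F q r v s t)).Finite := by
  refine (((mx_finite s hs).union (mx_finite t ht)).union (fv_support_finite hF)).subset ?_
  intro v hv
  by_contra hcon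
  rw [Set.mem_union, Set.mem_union, not_or, not_or] at hcon
  obtain ⟨⟨h1, h2⟩, h3⟩ := hcon
  have h1' : mx v s = 1 := not_not.1 h1
  have h2' : mx v t = 1 := not_not.1 h2
  have h3' : fv v (MvPolynomial.aeval (Sum.elim s t) F) = 1 := not_not.1 h3
  apply hv
  show min _ _ = (0 : ℝ)
  rw [lh_eq F q r v s t hs ht hF, h1', h2', h3', Real.log_one]
  simp only [mul_zero, add_zero, sub_zero]
  exact min_eq_right (log_Nv_pos v).le

theorem cnt_ge (F : MvPolynomial (Fin 2 ⊕ Fin 2) (𝓞 K)) {q r : ℕ} (hb : Bih F q r)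
    (s t : Fin 2 → K) (hs : s ≠ 0) (ht : t ≠ 0)
    (hF : MvPolynomial.aeval (Sum.elim s t) F ≠ (0 : K))
    (S : Finset (HeightOneSpectrum (𝓞 K)))
    (hS : ∀ w ∈ S, Real.log (Nv w) ≤ lh F q r w s t) :
    ∑ w ∈ S, Real.log (Nv w) ≤ cnt F q r s t := by
  classical
  have hfin := cnt_support F q r s t hs ht hF
  have h0 : cnt F q r s t = ∑ v ∈ hfin.toFinset ∪ S,
      min (Real.log (Ideal.absNorm v.asIdeal : ℝ)) (lh F q r v s t) := by
    refine finsum_eq_sum_of_support_subset _ ?_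
    intro v hv
    rw [Finset.coe_union]
    exact Or.inl ((Set.Finite.mem_toFinset hfin).2 hv)
  rw [h0]
  calc ∑ w ∈ S, Real.log (Nv w) = ∑ w ∈ S,
        min (Real.log (Ideal.absNorm w.asIdeal : ℝ)) (lh F q r w s t) := by
        refine sum_congr rfl fun w hw => ?_
        exact (min_eq_left (hS w hw)).symm
    _ ≤ _ := by
        refine sum_le_sum_of_subset_of_nonneg subset_union_right fun v _ _ => ?_
        exact le_min (log_Nv_pos v).le (lh_nonneg F hb v s t hs ht hF)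

/-- the coordinates of a point of the curve -/
noncomputable def pt (A : Fin 2 → (𝓞 K)[X]) (x : ℚ) : Fin 2 → K :=
  fun i => ((A i).map (algebraMap (𝓞 K) K)).eval (x : K)

theorem pt_ne (A : Fin 2 → (𝓞 K)[X])
    (hspan : Ideal.span (Set.range fun j => (A j).map (algebraMap (𝓞 K) K)) = ⊤) (x : ℚ) :
    pt A x ≠ 0 := by
  intro h
  have h1 : (1 : K[X]) ∈ Ideal.span (Set.range fun j => (A j).map (algebraMap (𝓞 K) K)) := by
    rw [hspan]
    trivial
  obtain ⟨c, hc⟩ := Ideal.mem_span_range_iff_exists_fun.1 h1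
  have h2 := congrArg (eval (x : K)) hc
  rw [eval_finsetSum, eval_one, sum_congr rfl fun j _ => by
    rw [eval_mul, show ((A j).map (algebraMap (𝓞 K) K)).eval (x : K) = 0 from congrFun h j,
      mul_zero], sum_const_zero] at h2
  exact zero_ne_one h2

theorem mx_hL (w : HeightOneSpectrum (𝓞 K)) (A : Fin 2 → (𝓞 K)[X]) (a : ℕ)
    (hA : ∀ i, (A i).natDegree ≤ a) (u v : ℤ) (hv : (v : K) ≠ 0) (x : ℚ)
    (hx : (x : K) = (u : K) / v)
    (h : ∃ j, 1 ≤ fv w (hL ((A j).map (algebraMap (𝓞 K) K)) a u v)) :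
    0 ≤ a * Real.log (fv w (v : K)) + Real.log (mx w (pt A x)) := by
  obtain ⟨j, hj⟩ := h
  rw [hL_eval _ _ (natDegree_map_le.trans (hA j)) u v hv, ← hx, map_mul, map_pow] at hj
  have hvp := (fv w).pos hv
  have h1 : fv w (((A j).map (algebraMap (𝓞 K) K)).eval (x : K)) ≤ mx w (pt A x) := by
    fin_cases j
    · exact le_max_left _ _
    · exact le_max_right _ _
  have h2 : 1 ≤ fv w (v : K) ^ a * mx w (pt A x) :=
    hj.trans (mul_le_mul_of_nonneg_left h1 (by positivity))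
  have h3 : 0 < mx w (pt A x) := by
    by_contra hcon
    push Not at hcon
    have h4 : fv w (v : K) ^ a * mx w (pt A x) ≤ 0 :=
      mul_nonpos_of_nonneg_of_nonpos (by positivity) hcon
    linarith
  have h5 := Real.log_nonneg h2
  rwa [Real.log_mul (by positivity) h3.ne', Real.log_pow] at h5

theorem main (F : MvPolynomial (Fin 2 ⊕ Fin 2) (𝓞 K)) {q r : ℕ} (hb : Bih F q r)
    (A B : Fin 2 → (𝓞 K)[X]) {a b : ℕ} (hA : ∀ i, (A i).natDegree ≤ a)
    (hB : ∀ i, (B i).natDegree ≤ b) (hA' : ∃ i, (A i).natDegree = a)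
    (hB' : ∃ i, (B i).natDegree = b)
    (hAs : Ideal.span (Set.range fun j => (A j).map (algebraMap (𝓞 K) K)) = ⊤)
    (hBs : Ideal.span (Set.range fun j => (B j).map (algebraMap (𝓞 K) K)) = ⊤)
    {ι : Type} [Fintype ι] [DecidableEq ι] (f : ι → ℤ[X]) (d : ι → ℕ)
    (hrel : ∀ i, (Irreducible ((f i).map (Int.castRingHom ℚ)) ∧ d i = (f i).natDegree ∧
      ¬ IsCoprime ((f i).map (Int.castRingHom K))
        ((MvPolynomial.aeval (Sum.elim A B) F : (𝓞 K)[X]).map (algebraMap (𝓞 K) K))) ∨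
      (f i = 1 ∧ d i = 1 ∧
        (MvPolynomial.aeval (Sum.elim A B) F : (𝓞 K)[X]).natDegree < a * q + b * r))
    {θ : ℝ} (hcnt : Cnt f d θ) :
    ∃ (C : ℝ) (e : ℕ), 0 < C ∧ ∀ R : ℝ, 1 ≤ R → ∀ S : Set ℚ,
      (∀ x ∈ S, MvPolynomial.aeval (Sum.elim (pt A x) (pt B x)) F ≠ (0 : K) ∧
        cnt F q r (pt A x) (pt B x) ≤ Real.log R) →
      S.Finite ∧ (S.ncard : ℝ) ≤ C * R ^ θ * (1 + Real.log R) ^ e := by
  classical
  set G : (𝓞 K)[X] := MvPolynomial.aeval (Sum.elim A B) F with hG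
  set D : ℕ := a * q + b * r with hD
  have hGD : G.natDegree ≤ D := degree_le F hb A B hA hB
  by_cases hG0 : G = 0
  · -- no points at all
    refine ⟨1, 0, one_pos, fun R hR S hS => ?_⟩
    have hSe : S = ∅ := by
      rw [Set.eq_empty_iff_forall_notMem]
      intro x hx
      apply (hS x hx).1
      have h1 := eval_restriction F A B (x : K)
      rw [← hG, hG0, Polynomial.map_zero, eval_zero] at h1
      exact h1.symm
    rw [hSe]
    refine ⟨Set.finite_empty, ?_⟩
    rw [Set.ncard_empty]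
    have : 0 < R := by linarith
    simp only [Nat.cast_zero, pow_zero, mul_one, one_mul]
    positivity
  have hrel' : ∀ i, (Irreducible ((f i).map (Int.castRingHom ℚ)) ∧ d i = (f i).natDegree ∧
      1 ≤ D ∧ ¬ IsCoprime ((f i).map (Int.castRingHom K)) (G.map (algebraMap (𝓞 K) K))) ∨
      (f i = 1 ∧ d i = 1 ∧ G.natDegree < D) := by
    intro i
    rcases hrel i with ⟨h1, h2, h3⟩ | h
    · refine Or.inl ⟨h1, h2, ?_, h3⟩
      by_contra hcon
      apply h3
      have h4 : G.natDegree = 0 := by omega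
      have h5 : G = C (G.coeff 0) := eq_C_of_natDegree_eq_zero h4
      have h6 : G.coeff 0 ≠ 0 := by
        intro h
        apply hG0
        rw [h5, h, C_0]
      have h7 : IsUnit (G.map (algebraMap (𝓞 K) K)) := by
        rw [h5, Polynomial.map_C]
        exact isUnit_C.2 (IsUnit.mk0 _ (fun h => h6 (RingOfIntegers.coe_eq_zero_iff.1 h)))
      obtain ⟨g, hg⟩ := h7.exists_left_inv
      exact ⟨0, g, by rw [zero_mul, zero_add, hg]⟩
    · exact Or.inr h
  obtain ⟨m0, hm0, h0⟩ := place_lower G D hGD f d hrel'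
  obtain ⟨m1, hm1, h1⟩ := bezK0 A a hA hA' hAs
  obtain ⟨m2, hm2, h2⟩ := bezK0 B b hB hB' hBs
  obtain ⟨C, e, hC, H⟩ := count_gen f d hcnt 1 le_rfl (fun x => cnt F q r (pt A x) (pt B x))
    (fun x => MvPolynomial.aeval (Sum.elim (pt A x) (pt B x)) F ≠ (0 : K)) (m0 * (m1 * m2))
    (Nat.mul_pos hm0 (Nat.mul_pos hm1 hm2)) (by
      intro x hx T hT
      rw [one_mul]
      have hs := pt_ne A hAs x
      have ht := pt_ne B hBs x
      have hcop : IsCoprime x.num (x.den : ℤ) := by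
        rw [Int.isCoprime_iff_gcd_eq_one]
        exact x.reduced
      have hden : (x.den : ℤ) ≠ 0 := by exact_mod_cast x.den_nz
      have hdenK : (((x.den : ℤ)) : K) ≠ 0 := by exact_mod_cast hden
      have hxeq : (x : K) = ((x.num : ℤ) : K) / (((x.den : ℤ)) : K) := by
        push_cast
        exact (Rat.cast_def x)
      refine sum_le_of_places (K := K) _ T (fun p hp => (hT p hp).1)
        (fun w => Real.log (Nv w) ≤ lh F q r w (pt A x) (pt B x)) (fun p hp => ?_)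
        (fun S hS => cnt_ge F hb (pt A x) (pt B x) hs ht hx S hS)
      obtain ⟨hp1, hp2, hp3⟩ := hT p hp
      obtain ⟨w, hw1, hw2⟩ := h0 x.num x.den hcop hden p hp1 (fun h => hp2 (h.mul_right _)) hp3
      have hA1 := mx_hL w A a hA x.num x.den hdenK x hxeq
        (h1 p hp1 (fun h => hp2 ((h.mul_right _).mul_left _)) w hw1 x.num x.den hcop hden)
      have hB1 := mx_hL w B b hB x.num x.den hdenK x hxeq
        (h2 p hp1 (fun h => hp2 ((h.mul_left _).mul_left _)) w hw1 x.num x.den hcop hden)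
      refine ⟨w, hw1, ?_⟩
      have hGe := eval_restriction F A B (x : K)
      rw [← hG] at hGe
      have hhL : hL (G.map (algebraMap (𝓞 K) K)) D x.num x.den =
          (((x.den : ℤ)) : K) ^ D * MvPolynomial.aeval (Sum.elim (pt A x) (pt B x)) F := by
        rw [hL_eval _ _ (natDegree_map_le.trans hGD) _ _ hdenK, ← hxeq, hGe]
        rfl
      have hne : hL (G.map (algebraMap (𝓞 K) K)) D x.num x.den ≠ 0 := by
        rw [hhL]
        exact mul_ne_zero (pow_ne_zero _ hdenK) hx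
      have h3 := log_le_neg w _ hne hw2
      rw [hhL, map_mul, map_pow, Real.log_mul (pow_pos ((fv w).pos hdenK) _).ne'
        ((fv w).pos hx).ne', Real.log_pow] at h3
      rw [lh_eq F q r w _ _ hs ht hx]
      have hq0 : (0 : ℝ) ≤ q := Nat.cast_nonneg q
      have hr0 : (0 : ℝ) ≤ r := Nat.cast_nonneg r
      have h4 := mul_nonneg hq0 hA1
      have h5 := mul_nonneg hr0 hB1
      have h6 : (D : ℝ) = a * q + b * r := by
        rw [hD]
        push_cast
        ring
      rw [h6] at h3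
      nlinarith)
  refine ⟨C, e, hC, fun R hR S hS => ?_⟩
  have h3 := H R hR S hS
  rwa [one_mul] at h3

end Pool.Agent.X100.NK.PP
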