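import Pool.Agent.X100.NK.PP

/-!
# Divisors on the product of two lines which contain members of a pencil
-/

set_option autoImplicit false

namespace Pool.Agent.X100.NK.PP

open NumberField IsDedekindDomain Finset Polynomial
open Pool.Agent.W4.CF Pool.Agent.W4.VC Pool.Agent.H691R3 Pool.Agent.W240.CD
open Pool.Agent.X100.Nt (Cnt)
open Pool.Agent.X100.NK

variable {K : Type} [Field K] [NumberField K]

/-- the form `∑ G_i U ^ i V ^ (n - i)` -/
noncomputable def member (G : (𝓞 K)[X]) (n : ℕ) (U V : MvPolynomial (Fin 2 ⊕ Fin 2) (𝓞 K)) :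
    MvPolynomial (Fin 2 ⊕ Fin 2) (𝓞 K) :=
  ∑ i ∈ range (n + 1), MvPolynomial.C (G.coeff i) * U ^ i * V ^ (n - i)

omit [NumberField K] in
theorem scale (F : MvPolynomial (Fin 2 ⊕ Fin 2) (𝓞 K)) {q r : ℕ} (h : Bih F q r)
    (s t : Fin 2 → K) (c c' : K) :
    MvPolynomial.aeval (Sum.elim (fun i => c * s i) (fun i => c' * t i)) F =
      c ^ q * c' ^ r * (MvPolynomial.aeval (Sum.elim s t) F : K) := by
  rw [aeval_expand, aeval_expand, mul_sum]
  refine sum_congr rfl fun e he => ?_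
  obtain ⟨h1, h2⟩ := bih_exp h e he
  rw [← h1, ← h2]
  ring

theorem int_le (w : HeightOneSpectrum (𝓞 K)) (F : MvPolynomial (Fin 2 ⊕ Fin 2) (𝓞 K))
    (s t : Fin 2 → K) (hs : mx w s = 1) (ht : mx w t = 1) :
    fv w (MvPolynomial.aeval (Sum.elim s t) F) ≤ 1 := by
  rw [aeval_expand]
  refine fv_sum_le w _ _ fun e _ => ?_
  have i0 : fv w (s 0) ≤ 1 := hs ▸ le_max_left _ _
  have i1 : fv w (s 1) ≤ 1 := hs ▸ le_max_right _ _
  have j0 : fv w (t 0) ≤ 1 := ht ▸ le_max_left _ _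
  have j1 : fv w (t 1) ≤ 1 := ht ▸ le_max_right _ _
  have n := fun z : K => (fv w).nonneg z
  simp only [map_mul, map_pow]
  exact mul_le_one₀ (fv_int' w _) (by have := n; positivity)
    (mul_le_one₀ (mul_le_one₀ (pow_le_one₀ (n _) i0) (pow_nonneg (n _) _) (pow_le_one₀ (n _) i1))
      (mul_nonneg (pow_nonneg (n _) _) (pow_nonneg (n _) _))
      (mul_le_one₀ (pow_le_one₀ (n _) j0) (pow_nonneg (n _) _) (pow_le_one₀ (n _) j1)))

theorem exists_norm (w : HeightOneSpectrum (𝓞 K)) (s : Fin 2 → K) (hs : s ≠ 0) :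
    ∃ (c : K) (s' : Fin 2 → K), c ≠ 0 ∧ mx w s' = 1 ∧ s = fun i => c * s' i := by
  have hp := mx_pos w s hs
  obtain ⟨i, hi⟩ : ∃ i, fv w (s i) = mx w s := by
    rcases max_choice (fv w (s 0)) (fv w (s 1)) with h | h
    · exact ⟨0, h.symm⟩
    · exact ⟨1, h.symm⟩
  have hi0 : s i ≠ 0 := by
    intro h
    rw [h, map_zero] at hi
    linarith
  refine ⟨s i, fun j => (s i)⁻¹ * s j, hi0, ?_, ?_⟩
  · rw [mx_smul, map_inv₀, hi, inv_mul_cancel₀ hp.ne']
  · funext j
    rw [mul_inv_cancel_left₀ hi0]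

/-- the local height is large at the places where the member of the pencil is close to `D` -/
theorem pencil_place (F U V : MvPolynomial (Fin 2 ⊕ Fin 2) (𝓞 K)) {q r a b : ℕ} (hb : Bih F q r)
    (hU : Bih U a b) (hV : Bih V a b) (G : (𝓞 K)[X]) (n : ℕ)
    (E : MvPolynomial (Fin 2 ⊕ Fin 2) (𝓞 K)) (c : 𝓞 K) (k : ℕ)
    (hE : member G n U V * E = MvPolynomial.C c * F ^ k)
    (w : HeightOneSpectrum (𝓞 K)) (hc : fv w (c : K) = 1) (s t : Fin 2 → K) (hs : s ≠ 0)
    (ht : t ≠ 0) (hF : MvPolynomial.aeval (Sum.elim s t) F ≠ (0 : K)) (x : K) (u v : ℤ)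
    (huv : IsCoprime u v) (hv : (v : K) ≠ 0) (hx : x = (u : K) / v)
    (hUV : MvPolynomial.aeval (Sum.elim s t) U = x * (MvPolynomial.aeval (Sum.elim s t) V : K))
    (h : fv w (hL (G.map (algebraMap (𝓞 K) K)) n u v) < 1) :
    Real.log (Nv w) ≤ lh F q r w s t := by
  obtain ⟨c1, s', hc1, hs', es⟩ := exists_norm w s hs
  obtain ⟨c2, t', hc2, ht', et⟩ := exists_norm w t ht
  set F' : K := MvPolynomial.aeval (Sum.elim s' t') F with hF'
  set U' : K := MvPolynomial.aeval (Sum.elim s' t') U with hU'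
  set V' : K := MvPolynomial.aeval (Sum.elim s' t') V with hV'
  have eF : MvPolynomial.aeval (Sum.elim s t) F = c1 ^ q * c2 ^ r * F' := by
    rw [es, et, scale F hb]
  have eU : MvPolynomial.aeval (Sum.elim s t) U = c1 ^ a * c2 ^ b * U' := by
    rw [es, et, scale U hU]
  have eV : MvPolynomial.aeval (Sum.elim s t) V = c1 ^ a * c2 ^ b * V' := by
    rw [es, et, scale V hV]
  have hF'0 : F' ≠ 0 := by
    intro h0
    rw [eF, h0, mul_zero] at hF
    exact hF rfl
  have hcc : c1 ^ a * c2 ^ b ≠ 0 := mul_ne_zero (pow_ne_zero _ hc1) (pow_ne_zero _ hc2)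
  have hU'V' : U' = x * V' := by
    rw [eU, eV] at hUV
    apply mul_left_cancel₀ hcc
    rw [hUV]
    ring
  have nU : fv w U' ≤ 1 := int_le w U s' t' hs' ht'
  have nV : fv w V' ≤ 1 := int_le w V s' t' hs' ht'
  have hvp := (fv w).pos hv
  -- the common factor of the values
  have hg : fv w (V' / v) ≤ 1 := by
    have h1 := max_one w u v huv
    rcases max_choice (fv w (u : K)) (fv w (v : K)) with h2 | h2
    · rw [h2] at h1
      have h3 : V' / v * u = U' := by
        rw [hU'V', hx]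
        ring
      have h4 : fv w (V' / v) * fv w (u : K) = fv w U' := by rw [← map_mul, h3]
      rw [h1, mul_one] at h4
      rw [h4]
      exact nU
    · rw [h2] at h1
      rw [map_div₀, h1, div_one]
      exact nV
  have eH : (MvPolynomial.aeval (Sum.elim s' t') (member G n U V) : K) =
      (V' / v) ^ n * hL (G.map (algebraMap (𝓞 K) K)) n u v := by
    rw [member, map_sum, hL, mul_sum]
    refine sum_congr rfl fun i hi => ?_
    have hin : i ≤ n := Nat.lt_succ_iff.mp (mem_range.mp hi)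
    rw [map_mul, map_mul, map_pow, map_pow, MvPolynomial.aeval_C, ← hU', ← hV', hU'V', hx,
      coeff_map, mul_pow]
    have h1 : (V' / (v : K)) ^ n = (V' / v) ^ i * (V' / v) ^ (n - i) := by
      rw [← pow_add, Nat.add_sub_cancel' hin]
    rw [h1, div_pow, div_pow, div_pow]
    field_simp
  have nH : fv w (MvPolynomial.aeval (Sum.elim s' t') (member G n U V)) < 1 := by
    rw [eH, map_mul, map_pow]
    have h1 := pow_le_one₀ ((fv w).nonneg (V' / v)) hg (n := n)
    have h2 := (fv w).nonneg (hL (G.map (algebraMap (𝓞 K) K)) n u v)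
    calc _ ≤ 1 * fv w (hL (G.map (algebraMap (𝓞 K) K)) n u v) :=
          mul_le_mul_of_nonneg_right h1 h2
      _ < 1 := by rw [one_mul]; exact h
  have nE : fv w (MvPolynomial.aeval (Sum.elim s' t') E) ≤ 1 := int_le w E s' t' hs' ht'
  have nF : fv w F' < 1 := by
    have h1 := congrArg (MvPolynomial.aeval (Sum.elim s' t') :
      MvPolynomial (Fin 2 ⊕ Fin 2) (𝓞 K) →ₐ[𝓞 K] K) hE
    rw [map_mul, map_mul, map_pow, MvPolynomial.aeval_C, ← hF'] at h1
    have h2 := congrArg (fv w) h1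
    rw [map_mul, map_mul, map_pow, hc, one_mul] at h2
    by_contra hcon
    push Not at hcon
    have h3 := one_le_pow₀ hcon (n := k)
    have h4 := (fv w).nonneg (MvPolynomial.aeval (Sum.elim s' t') (member G n U V) : K)
    have h5 := (fv w).nonneg (MvPolynomial.aeval (Sum.elim s' t') E : K)
    nlinarith
  rw [lh_eq F q r w s t hs ht hF]
  have h1 := log_le_neg w F' hF'0 nF
  have e1 : mx w s = fv w c1 := by rw [es, mx_smul, hs', mul_one]
  have e2 : mx w t = fv w c2 := by rw [et, mx_smul, ht', mul_one]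
  have p1 := (fv w).pos hc1
  have p2 := (fv w).pos hc2
  have p3 := (fv w).pos hF'0
  rw [e1, e2, eF, map_mul, map_mul, map_pow, map_pow, Real.log_mul (by positivity) p3.ne',
    Real.log_mul (by positivity) (by positivity), Real.log_pow, Real.log_pow]
  linarith

theorem pencil_main (F U V : MvPolynomial (Fin 2 ⊕ Fin 2) (𝓞 K)) {q r a b : ℕ} (hb : Bih F q r)
    (hU : Bih U a b) (hV : Bih V a b) (G : (𝓞 K)[X]) (n : ℕ) (hG : G.natDegree ≤ n)
    (E : MvPolynomial (Fin 2 ⊕ Fin 2) (𝓞 K)) (c : 𝓞 K) (hc : c ≠ 0) (k : ℕ)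
    (hE : member G n U V * E = MvPolynomial.C c * F ^ k)
    {ι : Type} [Fintype ι] [DecidableEq ι] (f : ι → ℤ[X]) (d : ι → ℕ)
    (hrel : ∀ i, (Irreducible ((f i).map (Int.castRingHom ℚ)) ∧ d i = (f i).natDegree ∧
      ¬ IsCoprime ((f i).map (Int.castRingHom K)) (G.map (algebraMap (𝓞 K) K))) ∨
      (f i = 1 ∧ d i = 1 ∧ G.natDegree < n))
    {θ : ℝ} (hcnt : Cnt f d θ) :
    ∃ (C : ℝ) (e : ℕ), 0 < C ∧ ∀ R : ℝ, 1 ≤ R → ∀ S : Set ℚ,
      (∀ x ∈ S, ∃ s t : Fin 2 → K, s ≠ 0 ∧ t ≠ 0 ∧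
        MvPolynomial.aeval (Sum.elim s t) F ≠ (0 : K) ∧
        MvPolynomial.aeval (Sum.elim s t) U = (x : K) * MvPolynomial.aeval (Sum.elim s t) V ∧
        cnt F q r s t ≤ Real.log R) →
      S.Finite ∧ (S.ncard : ℝ) ≤ C * R ^ θ * (1 + Real.log R) ^ e := by
  classical
  by_cases hG0 : G = 0
  · refine ⟨1, 0, one_pos, fun R hR S hS => ?_⟩
    have hSe : S = ∅ := by
      rw [Set.eq_empty_iff_forall_notMem]
      intro x hx
      obtain ⟨s, t, -, -, hF, -, -⟩ := hS x hx
      have h1 : member G n U V = 0 := by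
        rw [member, hG0]
        refine sum_eq_zero fun i _ => ?_
        rw [coeff_zero, MvPolynomial.C_0, zero_mul, zero_mul]
      rw [h1, zero_mul] at hE
      have h2 := congrArg (MvPolynomial.aeval (Sum.elim s t) :
        MvPolynomial (Fin 2 ⊕ Fin 2) (𝓞 K) →ₐ[𝓞 K] K) hE
      rw [map_zero, map_mul, map_pow, MvPolynomial.aeval_C] at h2
      have h3 : (algebraMap (𝓞 K) K c) ≠ 0 := fun h => hc (RingOfIntegers.coe_eq_zero_iff.1 h)
      exact (mul_ne_zero h3 (pow_ne_zero _ hF)) h2.symm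
    rw [hSe]
    refine ⟨Set.finite_empty, ?_⟩
    rw [Set.ncard_empty]
    have : 0 < R := by linarith
    simp only [Nat.cast_zero, pow_zero, mul_one, one_mul]
    positivity
  have hrel' : ∀ i, (Irreducible ((f i).map (Int.castRingHom ℚ)) ∧ d i = (f i).natDegree ∧
      1 ≤ n ∧ ¬ IsCoprime ((f i).map (Int.castRingHom K)) (G.map (algebraMap (𝓞 K) K))) ∨
      (f i = 1 ∧ d i = 1 ∧ G.natDegree < n) := by
    intro i
    rcases hrel i with ⟨h1, h2, h3⟩ | h
    · refine Or.inl ⟨h1, h2, ?_, h3⟩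
      by_contra hcon
      apply h3
      have h4 : G.natDegree = 0 := by omega
      have h5 : G = C (G.coeff 0) := eq_C_of_natDegree_eq_zero h4
      have h6 : G.coeff 0 ≠ 0 := by
        intro h
        apply hG0
        rw [h5, h, C_0]
      have h7 : IsUnit (G.map (algebraMap (𝓞 K) K)) := by
        rw [h5, Polynomial.map_C]
        exact isUnit_C.2 (IsUnit.mk0 _ (fun h => h6 (RingOfIntegers.coe_eq_zero_iff.1 h)))
      obtain ⟨g, hg⟩ := h7.exists_left_inv
      exact ⟨0, g, by rw [zero_mul, zero_add, hg]⟩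
    · exact Or.inr h
  have hcK : (c : K) ≠ 0 := fun h => hc (RingOfIntegers.coe_eq_zero_iff.1 h)
  obtain ⟨m0, hm0, h0⟩ := place_lower G n hG f d hrel'
  obtain ⟨m1, hm1, h1⟩ := coeff_int (C ((c : K)⁻¹))
  set Pts : ℚ → Set ℝ := fun x => {y | ∃ s t : Fin 2 → K, s ≠ 0 ∧ t ≠ 0 ∧
        MvPolynomial.aeval (Sum.elim s t) F ≠ (0 : K) ∧
        MvPolynomial.aeval (Sum.elim s t) U = (x : K) * MvPolynomial.aeval (Sum.elim s t) V ∧
        y = cnt F q r s t} with hPts
  have hbdd : ∀ x, BddBelow (Pts x) := by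
    intro x
    refine ⟨0, ?_⟩
    rintro y ⟨s, t, hs, ht, hF, -, rfl⟩
    have := cnt_ge F hb s t hs ht hF ∅ (by simp)
    rwa [sum_empty] at this
  obtain ⟨C, e, hC, H⟩ := count_gen f d hcnt 1 le_rfl (fun x => sInf (Pts x))
    (fun x => (Pts x).Nonempty) (m0 * m1) (Nat.mul_pos hm0 hm1) (by
      intro x hx T hT
      rw [one_mul]
      refine le_csInf hx ?_
      rintro y ⟨s, t, hs, ht, hF, hUV, rfl⟩
      have hcop : IsCoprime x.num (x.den : ℤ) := by
        rw [Int.isCoprime_iff_gcd_eq_one]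
        exact x.reduced
      have hden : (x.den : ℤ) ≠ 0 := by exact_mod_cast x.den_nz
      have hdenK : (((x.den : ℤ)) : K) ≠ 0 := by exact_mod_cast hden
      have hxeq : (x : K) = ((x.num : ℤ) : K) / (((x.den : ℤ)) : K) := by
        push_cast
        exact (Rat.cast_def x)
      refine sum_le_of_places (K := K) _ T (fun p hp => (hT p hp).1)
        (fun w => Real.log (Nv w) ≤ lh F q r w s t) (fun p hp => ?_)
        (fun S hS => cnt_ge F hb s t hs ht hF S hS)
      obtain ⟨hp1, hp2, hp3⟩ := hT p hp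
      obtain ⟨w, hw1, hw2⟩ := h0 x.num x.den hcop hden p hp1 (fun h => hp2 (h.mul_right _)) hp3
      have hc1 : fv w (c : K) = 1 := by
        have h5 := h1 p hp1 (fun h => hp2 (h.mul_left _)) w hw1 0
        rw [coeff_C_zero, map_inv₀] at h5
        refine le_antisymm (fv_int' w c) ?_
        by_contra hcc
        push Not at hcc
        have h6 : 0 < fv w (c : K) := (fv w).pos hcK
        have h7 := (one_lt_inv₀ h6).2 hcc
        linarith
      exact ⟨w, hw1, pencil_place F U V hb hU hV G n E c k hE w hc1 s t hs ht hF (x : K)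
        x.num x.den hcop hdenK hxeq hUV hw2⟩)
  refine ⟨C, e, hC, fun R hR S hS => ?_⟩
  have h3 := H R hR S (fun x hx => by
    obtain ⟨s, t, hs, ht, hF, hUV, hle⟩ := hS x hx
    have hmem : cnt F q r s t ∈ Pts x := ⟨s, t, hs, ht, hF, hUV, rfl⟩
    exact ⟨⟨_, hmem⟩, (csInf_le (hbdd x) hmem).trans hle⟩)
  rwa [one_mul] at h3

end Pool.Agent.X100.NK.PP
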